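import Mathlib

set_option autoImplicit false

/-!
# Brooks' theorem for three colours (finite graphs of maximum degree three without `K₄`)

The proof follows the path argument of Zajac.
-/

namespace GY7

open Finset

variable {V : Type*} [DecidableEq V]

/-- `c` is proper on the finite set `S`. -/
def ProperOn (H : SimpleGraph V) (c : V → Fin 3) (S : Finset V) : Prop :=
  ∀ u ∈ S, ∀ v ∈ S, H.Adj u v → c u ≠ c v

/-- colour one more vertex -/
theorem extend_one (H : SimpleGraph V) [DecidableRel H.Adj] {c : V → Fin 3} {S : Finset V}
    (hc : ProperOn H c S) (v : V)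
    (hcard : ((S.filter (H.Adj v)).image c).card ≤ 2) :
    ∃ c' : V → Fin 3, (∀ u, u ≠ v → c' u = c u) ∧ ProperOn H c' (insert v S) := by
  have hlt : ((S.filter (H.Adj v)).image c).card < (Finset.univ : Finset (Fin 3)).card := by
    simp only [Finset.card_univ, Fintype.card_fin]; omega
  obtain ⟨k, -, hk⟩ := Finset.exists_mem_notMem_of_card_lt_card hlt
  refine ⟨Function.update c v k, ?_, ?_⟩
  · intro u hu
    exact Function.update_of_ne hu _ _
  · have key : ∀ u ∈ S, u ≠ v → H.Adj v u → k ≠ c u := by
      intro u hu huv hadj hcon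
      apply hk
      rw [Finset.mem_image]
      exact ⟨u, Finset.mem_filter.mpr ⟨hu, hadj⟩, hcon.symm⟩
    intro a ha b hb hab
    by_cases hav : a = v
    · subst hav
      have hba : b ≠ a := fun h => H.loopless.irrefl a (h ▸ hab)
      have hbS : b ∈ S := (Finset.mem_insert.mp hb).resolve_left hba
      rw [Function.update_self, Function.update_of_ne hba]
      exact key b hbS hba hab
    · by_cases hbv : b = v
      · subst hbv
        have haS : a ∈ S := (Finset.mem_insert.mp ha).resolve_left hav
        rw [Function.update_self, Function.update_of_ne hav]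
        exact (key a haS hav hab.symm).symm
      · rw [Function.update_of_ne hav, Function.update_of_ne hbv]
        exact hc a ((Finset.mem_insert.mp ha).resolve_left hav) b
          ((Finset.mem_insert.mp hb).resolve_left hbv) hab

/-- The lists along which one can colour greedily: every element but the last has a later
neighbour, and the last one is `z`. -/
inductive Chn (H : SimpleGraph V) : List V → V → Prop
  | one (z : V) : Chn H [z] z
  | cons {L : List V} {z : V} (u : V) (h : ∃ w ∈ L, H.Adj u w) (hL : Chn H L z) : Chn H (u :: L) z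

theorem greedy (H : SimpleGraph V) [DecidableRel H.Adj]
    (hdeg : ∀ (S : Finset V) (v : V), (S.filter (H.Adj v)).card ≤ 3)
    {L : List V} {z : V} (hL : Chn H L z) :
    ∀ (S : Finset V) (c : V → Fin 3), ProperOn H c S → L.Nodup → (∀ u ∈ L, u ∉ S) →
      (∃ p ∈ S, ∃ q ∈ S, p ≠ q ∧ H.Adj z p ∧ H.Adj z q ∧ c p = c q) →
      ∃ c' : V → Fin 3, ProperOn H c' (S ∪ L.toFinset) := by
  induction hL with
  | one z =>
    intro S c hc _ hz hpq
    obtain ⟨p, hp, q, hq, hne, hzp, hzq, hcpq⟩ := hpq
    have hcard : ((S.filter (H.Adj z)).image c).card ≤ 2 := by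
      have hpF : p ∈ S.filter (H.Adj z) := Finset.mem_filter.mpr ⟨hp, hzp⟩
      have hqF : q ∈ (S.filter (H.Adj z)).erase p :=
        Finset.mem_erase.mpr ⟨hne.symm, Finset.mem_filter.mpr ⟨hq, hzq⟩⟩
      have hsub : (S.filter (H.Adj z)).image c ⊆ ((S.filter (H.Adj z)).erase p).image c := by
        intro k hk
        obtain ⟨u, hu, rfl⟩ := Finset.mem_image.mp hk
        by_cases hup : u = p
        · subst hup
          exact Finset.mem_image.mpr ⟨q, hqF, hcpq.symm⟩
        · exact Finset.mem_image.mpr ⟨u, Finset.mem_erase.mpr ⟨hup, hu⟩, rfl⟩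
      have h1 := Finset.card_le_card hsub
      have h2 : (((S.filter (H.Adj z)).erase p).image c).card
          ≤ ((S.filter (H.Adj z)).erase p).card := Finset.card_image_le
      have h3 := Finset.card_erase_of_mem hpF
      have h4 := hdeg S z
      omega
    obtain ⟨c', -, hc'⟩ := extend_one H hc z hcard
    refine ⟨c', ?_⟩
    have : S ∪ [z].toFinset = insert z S := by
      ext x; simp
    rw [this]; exact hc'
  | @cons L z u hu hL ih =>
    intro S c hc hnd hdis hpq
    obtain ⟨w, hwL, huw⟩ := hu
    have huS : u ∉ S := hdis u (by simp)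
    have hwS : w ∉ S := hdis w (by simp [hwL])
    have hcard : ((S.filter (H.Adj u)).image c).card ≤ 2 := by
      have h1 : (insert w (S.filter (H.Adj u))).card ≤ 3 := by
        have h2 := hdeg (insert w S) u
        have h3 : (insert w S).filter (H.Adj u) = insert w (S.filter (H.Adj u)) := by
          rw [Finset.filter_insert, if_pos huw]
        rw [h3] at h2; exact h2
      have h4 : w ∉ S.filter (H.Adj u) := fun h => hwS (Finset.mem_filter.mp h).1
      rw [Finset.card_insert_of_notMem h4] at h1
      have h5 : ((S.filter (H.Adj u)).image c).card ≤ (S.filter (H.Adj u)).card :=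
        Finset.card_image_le
      omega
    obtain ⟨c1, hc1, hp1⟩ := extend_one H hc u hcard
    have hnd' := List.nodup_cons.mp hnd
    obtain ⟨c', hc'⟩ := ih (insert u S) c1 hp1 hnd'.2
      (by
        intro x hx hmem
        rcases Finset.mem_insert.mp hmem with h | h
        · subst h; exact hnd'.1 hx
        · exact hdis x (by simp [hx]) h)
      (by
        obtain ⟨p, hp, q, hq, hne, hzp, hzq, hcpq⟩ := hpq
        refine ⟨p, Finset.mem_insert_of_mem hp, q, Finset.mem_insert_of_mem hq, hne, hzp, hzq, ?_⟩
        rw [hc1 p (fun h => huS (h ▸ hp)), hc1 q (fun h => huS (h ▸ hq)), hcpq])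
    refine ⟨c', ?_⟩
    have : S ∪ (u :: L).toFinset = insert u S ∪ L.toFinset := by
      ext x; simp
    rw [this]; exact hc'

omit [DecidableEq V] in
/-- prepending a reversed chain: if `A = a₁ … a_k` is a chain and the head `a₁`... we use the form:
`A.reverse ++ L` where consecutive elements of `A` are adjacent and the first element of `A`
has a neighbour in `L`. -/
theorem chn_reverse_append (H : SimpleGraph V) {L : List V} {z : V} (hL : Chn H L z) :
    ∀ A : List V, List.IsChain H.Adj A → (∀ a, A.head? = some a → ∃ w ∈ L, H.Adj a w) →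
      Chn H (A.reverse ++ L) z := by
  intro A
  induction A generalizing L with
  | nil => intro _ _; simpa using hL
  | cons a A ih =>
    intro hA hh
    have h1 : Chn H (a :: L) z := Chn.cons a (hh a rfl) hL
    have h2 : (a :: A).reverse ++ L = A.reverse ++ (a :: L) := by simp
    rw [h2]
    apply ih h1
    · exact (List.isChain_cons.mp hA).2
    · intro b hb
      refine ⟨a, by simp, ?_⟩
      have := (List.isChain_cons.mp hA).1 b (by
        rw [Option.mem_def]; exact hb)
      exact this.symm

omit [DecidableEq V] in
/-- prepending a chain whose last element has a neighbour in `L`. -/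
theorem chn_append (H : SimpleGraph V) {L : List V} {z : V} (hL : Chn H L z) :
    ∀ A : List V, List.IsChain H.Adj A → (∀ a, A.getLast? = some a → ∃ w ∈ L, H.Adj a w) →
      Chn H (A ++ L) z := by
  intro A
  induction A with
  | nil => intro _ _; simpa using hL
  | cons a A ih =>
    intro hA hh
    cases A with
    | nil => exact Chn.cons a (hh a rfl) hL
    | cons b A =>
      refine Chn.cons a ⟨b, by simp, ?_⟩ (ih (List.isChain_cons.mp hA).2 (by
        intro x hx; apply hh; rw [List.getLast?_cons_cons]; exact hx))
      exact (List.isChain_cons.mp hA).1 b (by simp)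

omit [DecidableEq V] in
theorem exists_last {p : V → Prop} :
    ∀ l : List V, (∃ b ∈ l, p b) → ∃ l1 b l2, l = l1 ++ b :: l2 ∧ p b ∧ ∀ w ∈ l2, ¬ p w := by
  intro l
  induction l with
  | nil => rintro ⟨b, hb, _⟩; simp at hb
  | cons a l ih =>
    rintro ⟨b, hb, hpb⟩
    by_cases h : ∃ b ∈ l, p b
    · obtain ⟨l1, b', l2, h1, h2, h3⟩ := ih h
      exact ⟨a :: l1, b', l2, by rw [h1]; rfl, h2, h3⟩
    · push Not at h
      rcases List.mem_cons.mp hb with h4 | h4
      · subst h4
        exact ⟨[], b, l, rfl, hpb, h⟩
      · exact absurd hpb (h b h4)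

omit [DecidableEq V] in
theorem exists_first {p : V → Prop} :
    ∀ l : List V, (∃ b ∈ l, p b) → ∃ l1 b l2, l = l1 ++ b :: l2 ∧ p b ∧ ∀ w ∈ l1, ¬ p w := by
  intro l
  induction l with
  | nil => rintro ⟨b, hb, _⟩; simp at hb
  | cons a l ih =>
    rintro ⟨b, hb, hpb⟩
    by_cases h : p a
    · exact ⟨[], a, l, rfl, h, by simp⟩
    · have h' : ∃ b ∈ l, p b := by
        rcases List.mem_cons.mp hb with h4 | h4
        · subst h4; exact absurd hpb h
        · exact ⟨b, h4, hpb⟩
      obtain ⟨l1, b', l2, h1, h2, h3⟩ := ih h'
      refine ⟨a :: l1, b', l2, by rw [h1]; rfl, h2, ?_⟩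
      intro w hw
      rcases List.mem_cons.mp hw with h5 | h5
      · subst h5; exact h
      · exact h3 w h5

omit [DecidableEq V] in
theorem exists_longest (p : List V → Prop) (n : ℕ) (h0 : ∃ P, p P)
    (hb : ∀ P, p P → P.length ≤ n) : ∃ P, p P ∧ ∀ P', p P' → P'.length ≤ P.length := by
  classical
  let s : Set ℕ := {m | ∃ P, p P ∧ P.length = m}
  have hne : s.Nonempty := by obtain ⟨P, hP⟩ := h0; exact ⟨P.length, P, hP, rfl⟩
  have hbd : BddAbove s := ⟨n, by rintro m ⟨P, hP, rfl⟩; exact hb P hP⟩
  obtain ⟨P, hP, hPl⟩ := Nat.sSup_mem hne hbd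
  refine ⟨P, hP, fun P' hP' => ?_⟩
  rw [hPl]
  exact le_csSup hbd ⟨P', hP', rfl⟩

omit [DecidableEq V] in
theorem ProperOn.mono {H : SimpleGraph V} {c : V → Fin 3} {S T : Finset V}
    (h : ProperOn H c T) (hST : S ⊆ T) : ProperOn H c S :=
  fun u hu v hv huv => h u (hST hu) v (hST hv) huv

theorem brooks_on (H : SimpleGraph V) [DecidableRel H.Adj]
    (hdeg : ∀ (S : Finset V) (v : V), (S.filter (H.Adj v)).card ≤ 3)
    (hK : ∀ T : Finset V, T.card = 4 → ¬ (∀ a ∈ T, ∀ b ∈ T, a ≠ b → H.Adj a b)) :
    ∀ S : Finset V, ∃ c : V → Fin 3, ProperOn H c S := by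
  intro S
  induction S using Finset.strongInduction with
  | H S ih =>
  by_cases hlow : ∃ v ∈ S, (S.filter (H.Adj v)).card ≤ 2
  · obtain ⟨v, hv, h2⟩ := hlow
    obtain ⟨c, hc⟩ := ih (S.erase v) (Finset.erase_ssubset hv)
    have h3 : (((S.erase v).filter (H.Adj v)).image c).card ≤ 2 := by
      refine (Finset.card_image_le).trans (le_trans (Finset.card_le_card ?_) h2)
      exact Finset.filter_subset_filter _ (Finset.erase_subset _ _)
    obtain ⟨c', -, hc'⟩ := extend_one H hc v h3
    exact ⟨c', by rwa [Finset.insert_erase hv] at hc'⟩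
  push Not at hlow
  rcases S.eq_empty_or_nonempty with rfl | ⟨v, hv⟩
  · exact ⟨fun _ => 0, by intro u hu; simp at hu⟩
  have hd3 : ∀ u ∈ S, (S.filter (H.Adj u)).card = 3 := by
    intro u hu
    have h1 := hlow u hu
    have h2 := hdeg S u
    omega
  -- two nonadjacent neighbours of `v`
  obtain ⟨x, hx, y, hy, hxy, hvx, hvy, hnadj⟩ : ∃ x ∈ S, ∃ y ∈ S, x ≠ y ∧ H.Adj v x ∧ H.Adj v y ∧
      ¬ H.Adj x y := by
    by_contra hcon
    push Not at hcon
    apply hK (insert v (S.filter (H.Adj v)))
    · rw [Finset.card_insert_of_notMem, hd3 v hv]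
      intro h
      exact H.loopless.irrefl v (Finset.mem_filter.mp h).2
    · intro a ha b hb hab
      rcases Finset.mem_insert.mp ha with h1 | h1
      · subst h1
        rcases Finset.mem_insert.mp hb with h2 | h2
        · exact absurd h2.symm hab
        · exact (Finset.mem_filter.mp h2).2
      · rcases Finset.mem_insert.mp hb with h2 | h2
        · subst h2; exact (Finset.mem_filter.mp h1).2.symm
        · exact hcon a (Finset.mem_filter.mp h1).1 b (Finset.mem_filter.mp h2).1 hab
            (Finset.mem_filter.mp h1).2 (Finset.mem_filter.mp h2).2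
  have hxv : x ≠ v := hvx.ne'
  have hyv : y ≠ v := hvy.ne'
  -- a longest path
  obtain ⟨P, ⟨hPnd, hPch, hPS, Q, hPQ⟩, hPmax⟩ := exists_longest
    (fun P => P.Nodup ∧ List.IsChain H.Adj P ∧ (∀ a ∈ P, a ∈ S) ∧ ∃ Q, P = Q ++ [y, v, x]) S.card
    ⟨[y, v, x], by
      refine ⟨?_, ?_, ?_, [], rfl⟩
      · simp [hyv, hxy.symm, hxv.symm]
      · simp [hvy.symm, hvx]
      · intro a ha
        simp only [List.mem_cons, List.not_mem_nil, or_false] at ha
        rcases ha with rfl | rfl | rfl
        · exact hy
        · exact hv
        · exact hx⟩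
    (by
      rintro P ⟨hnd, -, hS, -⟩
      rw [← List.toFinset_card_of_nodup hnd]
      apply Finset.card_le_card
      intro a ha
      exact hS a (List.mem_toFinset.mp ha))
  obtain ⟨a, P', hPa⟩ : ∃ a P', P = a :: P' := by
    cases P with
    | nil => simp at hPQ
    | cons a P' => exact ⟨a, P', rfl⟩
  have haP : a ∈ P := by rw [hPa]; simp
  have haS : a ∈ S := hPS a haP
  have hanb : ∀ b ∈ S, H.Adj a b → b ∈ P := by
    intro b hb hab
    by_contra hbP
    have h1 := hPmax (b :: P) ⟨List.nodup_cons.mpr ⟨hbP, hPnd⟩, by
        rw [List.isChain_cons]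
        refine ⟨?_, hPch⟩
        intro w hw
        rw [hPa] at hw
        simp only [List.head?_cons, Option.mem_def, Option.some.injEq] at hw
        subst hw; exact hab.symm, by
        intro w hw
        rcases List.mem_cons.mp hw with h | h
        · subst h; exact hb
        · exact hPS w h, b :: Q, by rw [hPQ]; rfl⟩
    simp at h1
  by_cases hall : ∀ s ∈ S, s ∈ P
  · -- Case 1: the path is Hamiltonian
    obtain ⟨z, hz, hzx, hzy⟩ : ∃ z ∈ S.filter (H.Adj v), z ≠ x ∧ z ≠ y := by
      by_contra hcon
      push Not at hcon
      have h1 : S.filter (H.Adj v) ⊆ {x, y} := by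
        intro z hz
        by_cases h : z = x
        · simp [h]
        · simp [hcon z hz h]
      have h2 := Finset.card_le_card h1
      rw [hd3 v hv] at h2
      have h3 : ({x, y} : Finset V).card ≤ 2 := Finset.card_le_two
      omega
    have hzS := (Finset.mem_filter.mp hz).1
    have hvz := (Finset.mem_filter.mp hz).2
    have hzQ : z ∈ Q := by
      have h1 := hall z hzS
      rw [hPQ] at h1
      simp only [List.mem_append, List.mem_cons, List.not_mem_nil, or_false] at h1
      rcases h1 with h | h | h | h
      · exact h
      · exact absurd h hzy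
      · exact absurd h hvz.ne'
      · exact absurd h hzx
    obtain ⟨Q1, Q2, hQ⟩ := List.append_of_mem hzQ
    have hPdec : P = Q1 ++ (z :: (Q2 ++ [y, v, x])) := by rw [hPQ, hQ]; simp
    rw [hPdec] at hPch hPnd
    have hch1 := (List.isChain_append.mp hPch)
    have hch2 := (List.isChain_cons.mp hch1.2.1)
    have hch3 := (List.isChain_append.mp hch2.2)
    have hL0 : Chn H [z, v] v := Chn.cons z ⟨v, by simp, hvz.symm⟩ (Chn.one v)
    have hL1 : Chn H (Q1 ++ [z, v]) v := by
      apply chn_append H hL0 Q1 hch1.1
      intro w hw
      exact ⟨z, by simp, hch1.2.2 w hw z (by simp)⟩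
    have hL2 : Chn H (Q2.reverse ++ (Q1 ++ [z, v])) v := by
      apply chn_reverse_append H hL1 Q2 hch3.1
      intro w hw
      refine ⟨z, by simp, ?_⟩
      refine (hch2.1 w ?_).symm
      rw [List.head?_append_of_ne_nil]
      · exact hw
      · rintro rfl; simp at hw
    obtain ⟨c', hc'⟩ := greedy H hdeg hL2 {x, y} (fun _ => 0) (by
        intro p hp q hq hpq
        exfalso
        simp only [Finset.mem_insert, Finset.mem_singleton] at hp hq
        rcases hp with rfl | rfl <;> rcases hq with rfl | rfl
        · exact H.loopless.irrefl _ hpq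
        · exact hnadj hpq
        · exact hnadj hpq.symm
        · exact H.loopless.irrefl _ hpq)
      (by
        rw [List.nodup_append] at hPnd
        obtain ⟨hn1, hn2, hn3⟩ := hPnd
        rw [List.nodup_cons, List.nodup_append] at hn2
        obtain ⟨hz2, hn4, hn5, hn6⟩ := hn2
        rw [List.nodup_append]
        refine ⟨List.nodup_reverse.mpr hn4, ?_, ?_⟩
        · rw [List.nodup_append]
          refine ⟨hn1, by simp [hvz.ne'], ?_⟩
          intro p hp q hq
          simp only [List.mem_cons, List.not_mem_nil, or_false] at hq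
          rcases hq with rfl | rfl
          · exact hn3 p hp q (by simp)
          · exact hn3 p hp q (by simp)
        · intro p hp q hq
          rw [List.mem_reverse] at hp
          simp only [List.mem_append, List.mem_cons, List.not_mem_nil, or_false] at hq
          rcases hq with hq | rfl | rfl
          · intro hpq
            subst hpq
            exact hn3 p hq p (by simp [hp]) rfl
          · intro hpq; subst hpq
            exact hz2 (by simp [hp])
          · exact hn6 p hp q (by simp))
      (by
        rw [List.nodup_append] at hPnd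
        obtain ⟨hn1, hn2, hn3⟩ := hPnd
        rw [List.nodup_cons, List.nodup_append] at hn2
        obtain ⟨hz2, hn4, hn5, hn6⟩ := hn2
        intro u hu huxy
        have hu2 : u = x ∨ u = y := by simpa using huxy
        simp only [List.mem_append, List.mem_reverse, List.mem_cons, List.not_mem_nil,
          or_false] at hu
        rcases hu with hu | hu | rfl | rfl
        · refine hn6 u hu u ?_ rfl
          rcases hu2 with rfl | rfl <;> simp
        · refine hn3 u hu u ?_ rfl
          rcases hu2 with rfl | rfl <;> simp
        · rcases hu2 with h | h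
          · exact hzx h
          · exact hzy h
        · rcases hu2 with h | h
          · exact hxv h.symm
          · exact hyv h.symm)
      ⟨x, by simp, y, by simp, hxy, hvx, hvy, rfl⟩
    refine ⟨c', hc'.mono ?_⟩
    intro s hs
    have h1 := hall s hs
    rw [hPdec] at h1
    simp only [List.mem_append, List.mem_cons, List.not_mem_nil, or_false] at h1
    simp only [Finset.mem_union, Finset.mem_insert, Finset.mem_singleton, List.mem_toFinset,
      List.mem_append, List.mem_reverse, List.mem_cons, List.not_mem_nil, or_false]
    tauto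
  · -- Case 2
    push Not at hall
    obtain ⟨s, hsS, hsP⟩ := hall
    have hex : ∃ b ∈ P, H.Adj a b := by
      have h1 : (S.filter (H.Adj a)).Nonempty := by
        rw [← Finset.card_pos, hd3 a haS]; norm_num
      obtain ⟨b, hb⟩ := h1
      have hb' := Finset.mem_filter.mp hb
      exact ⟨b, hanb b hb'.1 hb'.2, hb'.2⟩
    obtain ⟨C1, b, rest, hPC, hab, hrest⟩ := exists_last (p := H.Adj a) P hex
    have hPC' : P = (C1 ++ [b]) ++ rest := by rw [hPC]; simp
    set C := C1 ++ [b] with hC
    have hC1ne : ∃ C1', C1 = a :: C1' := by
      cases C1 with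
      | nil =>
        exfalso
        rw [hPa] at hPC
        simp only [List.nil_append, List.cons.injEq] at hPC
        exact hab.ne hPC.1
      | cons a' C1' =>
        rw [hPa] at hPC
        simp only [List.cons_append, List.cons.injEq] at hPC
        exact ⟨C1', by rw [hPC.1]⟩
    obtain ⟨C1', hC1'⟩ := hC1ne
    have haC : a ∈ C := by rw [hC, hC1']; simp
    have hCP : ∀ w ∈ C, w ∈ P := by intro w hw; rw [hPC']; exact List.mem_append_left _ hw
    have haC2 : ∀ w ∈ S, H.Adj a w → w ∈ C := by
      intro w hw haw
      have h1 := hanb w hw haw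
      rw [hPC'] at h1
      rcases List.mem_append.mp h1 with h | h
      · exact h
      · exact absurd haw (hrest w h)
    have hCsub : C.toFinset ⊆ S := by
      intro w hw; exact hPS w (hCP w (List.mem_toFinset.mp hw))
    have hCss : C.toFinset ⊂ S := by
      refine Finset.ssubset_iff_subset_ne.mpr ⟨hCsub, ?_⟩
      intro h
      rw [← h, List.mem_toFinset] at hsS
      exact hsP (hCP s hsS)
    have hSC : S \ C.toFinset ⊂ S := by
      refine Finset.ssubset_iff_subset_ne.mpr ⟨Finset.sdiff_subset, ?_⟩
      intro h
      have : a ∈ S \ C.toFinset := by rw [h]; exact haS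
      exact (Finset.mem_sdiff.mp this).2 (List.mem_toFinset.mpr haC)
    obtain ⟨c, hc⟩ := ih _ hSC
    by_cases hout : ∃ u ∈ C, ∃ w ∈ S, w ∉ C ∧ H.Adj u w
    · obtain ⟨D, u, D2, hCD, ⟨y', hy'S, hy'C, huy'⟩, hD⟩ :=
        exists_first (p := fun u => ∃ w ∈ S, w ∉ C ∧ H.Adj u w) C hout
      have hDne : D ≠ [] := by
        rintro rfl
        rw [List.nil_append, hC, hC1'] at hCD
        simp only [List.cons_append, List.cons.injEq] at hCD
        rw [← hCD.1] at huy'
        exact hy'C (haC2 y' hy'S huy')
      obtain ⟨D1, w, hDw⟩ : ∃ D1 w, D = D1 ++ [w] := by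
        rcases List.eq_nil_or_concat D with h | ⟨D1, w, h⟩
        · exact absurd h hDne
        · exact ⟨D1, w, by rw [h]; simp⟩
      have hwout : ∀ q ∈ S, q ∉ C → ¬ H.Adj w q := by
        intro q hq hqC hwq
        exact hD w (by rw [hDw]; simp) ⟨q, hq, hqC, hwq⟩
      have hCdec : C = D1 ++ (w :: u :: D2) := by rw [hCD, hDw]; simp
      have hwC : w ∈ C := by rw [hCdec]; simp
      have huC : u ∈ C := by rw [hCdec]; simp
      have hCch : List.IsChain H.Adj C := by
        rw [hPC'] at hPch
        exact (List.isChain_append.mp hPch).1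
      have hCnd : C.Nodup := by
        rw [hPC'] at hPnd
        exact (List.nodup_append.mp hPnd).1
      rw [hCdec] at hCch hCnd
      have hch1 := List.isChain_append.mp hCch
      have hch2 := List.isChain_cons.mp hch1.2.1
      have hch3 := List.isChain_cons.mp hch2.2
      have hwu : H.Adj w u := hch2.1 u (by simp)
      have hL0 : Chn H [u] u := Chn.one u
      have hL1 : Chn H (D2.reverse ++ [u]) u := by
        apply chn_reverse_append H hL0 D2 hch3.2
        intro q hq
        exact ⟨u, by simp, (hch3.1 q hq).symm⟩
      have hbmem : b ∈ u :: D2 ∨ D1 = [] := by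
        by_cases hD1 : D1 = []
        · right; exact hD1
        · left
          have h1 : C.getLast? = some b := by rw [hC]; simp
          have h2 : C.getLast? = (u :: D2).getLast? := by
            rw [hCdec, List.getLast?_append_of_ne_nil _ (by simp), List.getLast?_cons_cons]
          rw [h2] at h1
          exact List.mem_of_getLast? h1
      have hL2 : Chn H (D1.reverse ++ (D2.reverse ++ [u])) u := by
        apply chn_reverse_append H hL1 D1 hch1.1
        intro q hq
        have hqa : q = a := by
          cases D1 with
          | nil => simp at hq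
          | cons d D1 =>
            rw [hC, hC1'] at hCdec
            simp only [List.cons_append, List.cons.injEq] at hCdec
            simp only [List.head?_cons, Option.some.injEq] at hq
            rw [← hq, hCdec.1]
        subst hqa
        refine ⟨b, ?_, hab⟩
        rcases hbmem with h | h
        · rcases List.mem_cons.mp h with h | h
          · simp [h]
          · simp [h]
        · subst h; simp at hq
      have hc1 : ProperOn H (Function.update c w (c y')) (insert w (S \ C.toFinset)) := by
        intro p hp q hq hpq
        have hnw : ∀ r ∈ S \ C.toFinset, r ≠ w := by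
          intro r hr h
          subst h
          exact (Finset.mem_sdiff.mp hr).2 (List.mem_toFinset.mpr hwC)
        have hwno : ∀ r ∈ S \ C.toFinset, ¬ H.Adj w r := by
          intro r hr
          have := Finset.mem_sdiff.mp hr
          exact hwout r this.1 (fun h => this.2 (List.mem_toFinset.mpr h))
        rcases Finset.mem_insert.mp hp with hp' | hp'
        · subst hp'
          rcases Finset.mem_insert.mp hq with hq' | hq'
          · subst hq'; exact absurd hpq (H.loopless.irrefl _)
          · exact absurd hpq (hwno q hq')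
        · rcases Finset.mem_insert.mp hq with hq' | hq'
          · subst hq'; exact absurd hpq.symm (hwno p hp')
          · rw [Function.update_of_ne (hnw p hp'), Function.update_of_ne (hnw q hq')]
            exact hc p hp' q hq' hpq
      have hy'w : y' ≠ w := by rintro rfl; exact hy'C hwC
      obtain ⟨c', hc'⟩ := greedy H hdeg hL2 _ _ hc1
        (by
          rw [List.nodup_append] at hCnd
          obtain ⟨hn1, hn2, hn3⟩ := hCnd
          rw [List.nodup_cons, List.nodup_cons] at hn2
          obtain ⟨hn4, hn5, hn6⟩ := hn2
          rw [List.nodup_append]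
          refine ⟨List.nodup_reverse.mpr hn1, ?_, ?_⟩
          · rw [List.nodup_append]
            refine ⟨List.nodup_reverse.mpr hn6, by simp, ?_⟩
            intro p hp q hq
            simp only [List.mem_cons, List.not_mem_nil, or_false] at hq
            subst hq
            rintro rfl
            exact hn5 (List.mem_reverse.mp hp)
          · intro p hp q hq
            rw [List.mem_reverse] at hp
            apply hn3 p hp
            simp only [List.mem_append, List.mem_reverse, List.mem_cons, List.not_mem_nil,
              or_false] at hq ⊢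
            tauto)
        (by
          rw [List.nodup_append] at hCnd
          obtain ⟨hn1, hn2, hn3⟩ := hCnd
          rw [List.nodup_cons, List.nodup_cons] at hn2
          obtain ⟨hn4, hn5, hn6⟩ := hn2
          intro q hq hq2
          have hqC : q ∈ C := by
            rw [hCdec]
            simp only [List.mem_append, List.mem_reverse, List.mem_cons, List.not_mem_nil,
              or_false] at hq ⊢
            tauto
          have hqw : q ≠ w := by
            simp only [List.mem_append, List.mem_reverse, List.mem_cons, List.not_mem_nil,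
              or_false] at hq
            rintro rfl
            rcases hq with h | h | h
            · exact hn3 q h q (by simp) rfl
            · exact hn4 (by simp [h])
            · exact hn4 (by simp [h])
          rcases Finset.mem_insert.mp hq2 with h | h
          · exact hqw h
          · exact (Finset.mem_sdiff.mp h).2 (List.mem_toFinset.mpr hqC))
        ⟨y', Finset.mem_insert_of_mem (Finset.mem_sdiff.mpr ⟨hy'S, fun h =>
            hy'C (List.mem_toFinset.mp h)⟩), w, Finset.mem_insert_self _ _, hy'w, huy', hwu.symm,
          by rw [Function.update_of_ne hy'w, Function.update_self]⟩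
      refine ⟨c', hc'.mono ?_⟩
      intro q hq
      by_cases hqC : q ∈ C
      · rw [hCdec] at hqC
        simp only [List.mem_append, List.mem_cons] at hqC
        simp only [Finset.mem_union, Finset.mem_insert, List.mem_toFinset,
          List.mem_append, List.mem_reverse, List.mem_cons, List.not_mem_nil, or_false]
        tauto
      · refine Finset.mem_union_left _ (Finset.mem_insert_of_mem (Finset.mem_sdiff.mpr ⟨hq, ?_⟩))
        exact fun h => hqC (List.mem_toFinset.mp h)
    · push Not at hout
      obtain ⟨c2, hc2⟩ := ih _ hCss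
      refine ⟨fun u => if u ∈ C then c2 u else c u, ?_⟩
      intro p hp q hq hpq
      by_cases hpC : p ∈ C
      · by_cases hqC : q ∈ C
        · simp only [hpC, hqC, if_true]
          exact hc2 p (List.mem_toFinset.mpr hpC) q (List.mem_toFinset.mpr hqC) hpq
        · exact absurd hpq (hout p hpC q hq hqC)
      · by_cases hqC : q ∈ C
        · exact absurd hpq.symm (hout q hqC p hp hpC)
        · simp only [hpC, hqC, if_false]
          exact hc p (Finset.mem_sdiff.mpr ⟨hp, fun h => hpC (List.mem_toFinset.mp h)⟩) q
            (Finset.mem_sdiff.mpr ⟨hq, fun h => hqC (List.mem_toFinset.mp h)⟩) hpq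

/-- **Brooks' theorem for three colours.** -/
theorem brooks_three [Fintype V] (H : SimpleGraph V) [DecidableRel H.Adj]
    (hdeg : ∀ v, H.degree v ≤ 3)
    (hK : ∀ T : Finset V, T.card = 4 → ¬ (∀ a ∈ T, ∀ b ∈ T, a ≠ b → H.Adj a b)) :
    ∃ c : V → Fin 3, ∀ u v, H.Adj u v → c u ≠ c v := by
  obtain ⟨c, hc⟩ := brooks_on H (fun S v => by
    refine le_trans (Finset.card_le_card ?_) (hdeg v)
    intro w hw
    rw [SimpleGraph.mem_neighborFinset]
    exact (Finset.mem_filter.mp hw).2) hK Finset.univ
  exact ⟨c, fun u v huv => hc u (Finset.mem_univ _) v (Finset.mem_univ _) huv⟩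

end GY7
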