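import Mathlib

set_option autoImplicit false
set_option linter.unusedSectionVars false

/-!
# Conflict systems and their energy

`C j k u v` : the vertex `u` in column `j` conflicts with the vertex `v` in column `k`.
-/

namespace GY7

open Finset

variable {V K : Type*} [Fintype V] [DecidableEq V] [Fintype K] [DecidableEq K]

/-- A conflict system. -/
structure Sys (V K : Type*) where
  C : K → K → V → V → Prop
  symm : ∀ j k u v, C j k u v → C k j v u
  irr : ∀ j k u, ¬ C j k u u

variable (S : Sys V K)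

/-- The conflict graph of the column assignment `ψ`. -/
def Sys.H (ψ : V → K) : SimpleGraph V where
  Adj u v := S.C (ψ u) (ψ v) u v
  symm := ⟨fun u v h => S.symm _ _ u v h⟩
  loopless := ⟨fun u h => S.irr _ _ u h⟩

open Classical in
/-- the number of conflicts of `v` if it is put into column `k` -/
noncomputable def Sys.cost (ψ : V → K) (v : V) (k : K) : ℕ :=
  (univ.filter (fun u => S.C k (ψ u) v u)).card

/-- the energy: number of ordered conflicting pairs -/
noncomputable def Sys.energy (ψ : V → K) : ℕ := ∑ v, S.cost ψ v (ψ v)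

/-- `T` is a clique of the conflict graph -/
def Clq (H : SimpleGraph V) (T : Finset V) : Prop := ∀ a ∈ T, ∀ b ∈ T, a ≠ b → H.Adj a b

open Classical in
noncomputable def Sys.k4 (ψ : V → K) : Finset (Finset V) :=
  univ.filter (fun T => T.card = 4 ∧ Clq (S.H ψ) T)

theorem Sys.mem_k4 {ψ : V → K} {T : Finset V} : T ∈ S.k4 ψ ↔ T.card = 4 ∧ Clq (S.H ψ) T := by
  classical
  simp [Sys.k4]

/-- `ψ` minimises the energy and then the number of four-cliques of the conflict graph -/
def Sys.IsMin (ψ : V → K) : Prop :=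
  (∀ φ, S.energy ψ ≤ S.energy φ) ∧ (∀ φ, S.energy φ = S.energy ψ → (S.k4 ψ).card ≤ (S.k4 φ).card)

theorem Sys.exists_min [Nonempty K] : ∃ ψ : V → K, S.IsMin ψ := by
  classical
  obtain ⟨φ, -, hφ⟩ := Finset.exists_min_image (univ : Finset (V → K)) S.energy
    ⟨fun _ => Classical.arbitrary K, mem_univ _⟩
  obtain ⟨ψ, hψ, hψ2⟩ := Finset.exists_min_image
    ((univ : Finset (V → K)).filter (fun χ => S.energy χ = S.energy φ)) (fun χ => (S.k4 χ).card)
    ⟨φ, by simp⟩
  have h1 := (mem_filter.mp hψ).2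
  refine ⟨ψ, ?_, ?_⟩
  · intro χ; rw [h1]; exact hφ χ (mem_univ _)
  · intro χ hχ; exact hψ2 χ (mem_filter.mpr ⟨mem_univ _, hχ.trans h1⟩)

theorem Sys.H_update_of_ne (ψ : V → K) (v : V) (k : K) {a b : V} (ha : a ≠ v) (hb : b ≠ v) :
    (S.H (Function.update ψ v k)).Adj a b ↔ (S.H ψ).Adj a b := by
  simp [Sys.H, ha, hb]

theorem Sys.H_update_self (ψ : V → K) (v : V) (k : K) {b : V} (hb : b ≠ v) :
    (S.H (Function.update ψ v k)).Adj v b ↔ S.C k (ψ b) v b := by
  simp [Sys.H, hb]

theorem Sys.cost_update_self (ψ : V → K) (v : V) (k l : K) :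
    S.cost (Function.update ψ v k) v l = S.cost ψ v l := by
  classical
  unfold Sys.cost
  congr 1
  apply Finset.filter_congr
  intro u _
  by_cases h : u = v
  · subst h
    constructor
    · intro h'; exact absurd h' (S.irr _ _ _)
    · intro h'; exact absurd h' (S.irr _ _ _)
  · rw [Function.update_of_ne h]

/-- the change of the energy when `v` is moved to column `k` -/
theorem Sys.energy_update (ψ : V → K) (v : V) (k : K) :
    S.energy (Function.update ψ v k) + 2 * S.cost ψ v (ψ v) = S.energy ψ + 2 * S.cost ψ v k := by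
  classical
  let e : (V → K) → V → V → ℕ := fun φ a b => if S.C (φ a) (φ b) a b then 1 else 0
  have he : ∀ φ : V → K, S.energy φ = ∑ a, ∑ b, e φ a b := by
    intro φ
    unfold Sys.energy Sys.cost
    apply Finset.sum_congr rfl
    intro a _
    rw [Finset.card_filter]
  have hsym : ∀ φ a b, e φ a b = e φ b a := by
    intro φ a b
    simp only [e]
    by_cases h : S.C (φ a) (φ b) a b
    · rw [if_pos h, if_pos (S.symm _ _ _ _ h)]
    · rw [if_neg h, if_neg (fun h' => h (S.symm _ _ _ _ h'))]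
  have hzero : ∀ φ a, e φ a a = 0 := by
    intro φ a; simp only [e]; rw [if_neg (S.irr _ _ _)]
  have hsplit : ∀ φ : V → K, S.energy φ
      = (∑ a ∈ univ.erase v, ∑ b ∈ univ.erase v, e φ a b) + 2 * S.cost φ v (φ v) := by
    intro φ
    have hc : S.cost φ v (φ v) = ∑ b, e φ v b := by
      unfold Sys.cost; rw [Finset.card_filter]
    rw [he, ← Finset.add_sum_erase _ _ (mem_univ v), hc]
    have h1 : ∀ a ∈ univ.erase v, ∑ b, e φ a b = e φ v a + ∑ b ∈ univ.erase v, e φ a b := by
      intro a _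
      rw [← Finset.add_sum_erase _ _ (mem_univ v), hsym φ a v]
    rw [Finset.sum_congr rfl h1, Finset.sum_add_distrib]
    have h2 : ∑ a ∈ univ.erase v, e φ v a = ∑ b, e φ v b := by
      rw [← Finset.add_sum_erase (univ : Finset V) (e φ v) (mem_univ v), hzero, zero_add]
    rw [h2]; ring
  have h1 := hsplit ψ
  have h2 := hsplit (Function.update ψ v k)
  rw [Function.update_self, Sys.cost_update_self] at h2
  have h3 : (∑ a ∈ univ.erase v, ∑ b ∈ univ.erase v, e (Function.update ψ v k) a b)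
      = ∑ a ∈ univ.erase v, ∑ b ∈ univ.erase v, e ψ a b := by
    apply Finset.sum_congr rfl
    intro a ha
    apply Finset.sum_congr rfl
    intro b hb
    simp only [e]
    rw [Function.update_of_ne (Finset.ne_of_mem_erase ha),
      Function.update_of_ne (Finset.ne_of_mem_erase hb)]
  rw [h3] at h2
  omega

theorem Sys.min_cost {ψ : V → K} (h : ∀ φ, S.energy ψ ≤ S.energy φ) (v : V) (k : K) :
    S.cost ψ v (ψ v) ≤ S.cost ψ v k := by
  have h1 := S.energy_update ψ v k
  have h2 := h (Function.update ψ v k)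
  omega

/-- a clique through `v` in the conflict graph -/
theorem Sys.clq_card_le {ψ : V → K} {T : Finset V} (hT : Clq (S.H ψ) T) {v : V} (hv : v ∈ T) :
    T.card ≤ S.cost ψ v (ψ v) + 1 := by
  classical
  have h1 : T.erase v ⊆ univ.filter (fun u => S.C (ψ v) (ψ u) v u) := by
    intro u hu
    have hu' := Finset.mem_erase.mp hu
    exact mem_filter.mpr ⟨mem_univ _, hT v hv u hu'.2 hu'.1.symm⟩
  have h2 := Finset.card_le_card h1
  rw [Finset.card_erase_of_mem hv] at h2
  unfold Sys.cost
  omega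

/-- if all costs are at most three, a four-clique is closed -/
theorem Sys.closed4 {ψ : V → K} (h3 : ∀ v, S.cost ψ v (ψ v) ≤ 3) {T : Finset V}
    (hT : T ∈ S.k4 ψ) {a b : V} (ha : a ∈ T) (hab : (S.H ψ).Adj a b) : b ∈ T := by
  classical
  obtain ⟨hc, hT⟩ := S.mem_k4.mp hT
  by_contra hb
  have h1 : insert b (T.erase a) ⊆ univ.filter (fun u => S.C (ψ a) (ψ u) a u) := by
    intro u hu
    rcases Finset.mem_insert.mp hu with rfl | hu
    · exact mem_filter.mpr ⟨mem_univ _, hab⟩
    · have hu' := Finset.mem_erase.mp hu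
      exact mem_filter.mpr ⟨mem_univ _, hT a ha u hu'.2 hu'.1.symm⟩
  have h2 := Finset.card_le_card h1
  rw [Finset.card_insert_of_notMem (fun h => hb (Finset.mem_of_mem_erase h)),
    Finset.card_erase_of_mem ha, hc] at h2
  have h4 := h3 a
  unfold Sys.cost at h4
  omega

/-- **The move lemma.** -/
theorem Sys.move {ψ : V → K} (hmin : S.IsMin ψ)
    (h3 : ∀ φ : V → K, (∀ χ, S.energy φ ≤ S.energy χ) → ∀ v, S.cost φ v (φ v) ≤ 3)
    {T : Finset V} (hT : T ∈ S.k4 ψ) {v : V} (hv : v ∈ T) {k : K} (hk : S.cost ψ v k = 3) :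
    S.IsMin (Function.update ψ v k) ∧ ∃ T' ∈ S.k4 (Function.update ψ v k), v ∈ T' := by
  classical
  set φ := Function.update ψ v k with hφ
  have hcv : S.cost ψ v (ψ v) = 3 := by
    have h1 := S.clq_card_le (S.mem_k4.mp hT).2 hv
    rw [(S.mem_k4.mp hT).1] at h1
    have h2 := h3 ψ hmin.1 v
    omega
  have hen : S.energy φ = S.energy ψ := by
    have := S.energy_update ψ v k
    rw [hk, hcv] at this
    rw [hφ]; omega
  have hφmin : ∀ χ, S.energy φ ≤ S.energy χ := fun χ => hen ▸ hmin.1 χ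
  have h3φ := h3 φ hφmin
  have hk4 := hmin.2 φ hen
  -- four-cliques avoiding `v`
  have havoid : ∀ T' ∈ S.k4 φ, v ∉ T' → T' ∈ (S.k4 ψ).erase T := by
    intro T' hT' hvT'
    have h1 := S.mem_k4.mp hT'
    refine Finset.mem_erase.mpr ⟨?_, S.mem_k4.mpr ⟨h1.1, ?_⟩⟩
    · rintro rfl; exact hvT' hv
    · intro a ha b hb hab
      have hav : a ≠ v := by rintro rfl; exact hvT' ha
      have hbv : b ≠ v := by rintro rfl; exact hvT' hb
      exact (S.H_update_of_ne ψ v k hav hbv).mp (h1.2 a ha b hb hab)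
  have hcardT : ((S.k4 ψ).erase T).card + 1 = (S.k4 ψ).card := Finset.card_erase_add_one hT
  have hex : ∃ T' ∈ S.k4 φ, v ∈ T' := by
    by_contra hcon
    push Not at hcon
    have h1 : S.k4 φ ⊆ (S.k4 ψ).erase T := fun T' hT' => havoid T' hT' (hcon T' hT')
    have h2 := Finset.card_le_card h1
    omega
  refine ⟨⟨hφmin, ?_⟩, hex⟩
  obtain ⟨T', hT', hvT'⟩ := hex
  have huniq : ∀ T'' ∈ S.k4 φ, v ∈ T'' → T'' = T' := by
    intro T'' hT'' hv''
    apply Finset.eq_of_subset_of_card_le
    · intro a ha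
      by_cases hav : a = v
      · rw [hav]; exact hvT'
      · exact S.closed4 h3φ hT' hvT' ((S.mem_k4.mp hT'').2 v hv'' a ha (Ne.symm hav))
    · rw [(S.mem_k4.mp hT').1, (S.mem_k4.mp hT'').1]
  have h1 : S.k4 φ ⊆ insert T' ((S.k4 ψ).erase T) := by
    intro T'' hT''
    by_cases hv'' : v ∈ T''
    · rw [huniq T'' hT'' hv'']; exact Finset.mem_insert_self _ _
    · exact Finset.mem_insert_of_mem (havoid T'' hT'' hv'')
  have h2 := (Finset.card_le_card h1).trans (Finset.card_insert_le _ _)
  intro χ hχ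
  have h4 := hmin.2 χ (hχ.trans hen)
  omega

end GY7
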