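import Pool.Agent.Lib_helper64.GY.Girth

set_option autoImplicit false

/-!
# Local structure of graphs of girth at least seven

Three or more vertices pairwise at distance at most two lie in a unique closed star.
-/

namespace GY7

open SimpleGraph

variable {V : Type*}

/-- adjacent or with a common neighbour -/
def Nr (G : SimpleGraph V) (u v : V) : Prop := G.Adj u v ∨ ∃ x, G.Adj u x ∧ G.Adj x v

/-- `u` lies in the closed star at `x` -/
def Cl (G : SimpleGraph V) (x u : V) : Prop := u = x ∨ G.Adj x u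

theorem Nr.symm {G : SimpleGraph V} {u v : V} (h : Nr G u v) : Nr G v u := by
  rcases h with h | ⟨x, h1, h2⟩
  · exact Or.inl h.symm
  · exact Or.inr ⟨x, h2.symm, h1.symm⟩

/-- The elementary form of girth at least seven. -/
structure NoShort (G : SimpleGraph V) : Prop where
  c3 : ∀ a b c, G.Adj a b → G.Adj b c → G.Adj c a → False
  c4 : ∀ a b c d, G.Adj a b → G.Adj b c → G.Adj a d → G.Adj d c → a ≠ c → b = d
  c5 : ∀ a b c d e, G.Adj a b → G.Adj b c → G.Adj c d → G.Adj d e → G.Adj e a → False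
  c6 : ∀ a b c d e f, G.Adj a b → G.Adj b c → G.Adj c d → G.Adj d e → G.Adj e f → G.Adj f a →
    a ≠ c → c ≠ e → e ≠ a → b = d ∨ d = f ∨ f = b

theorem noShort_of_girth {G : SimpleGraph V} (hg : GY64.GirthGe G 7) : NoShort G := by
  have c3 : ∀ a b c, G.Adj a b → G.Adj b c → G.Adj c a → False := by
    intro a b c hab hbc hca
    have h := GY64.path_unique hg (Walk.cons hab (Walk.cons hbc Walk.nil)) (Walk.cons hca.symm Walk.nil)
      (by simp [hab.ne, hbc.ne, hca.ne']) (by simp [hca.ne']) (by simp)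
    have := congrArg Walk.length h
    simp at this
  have c4 : ∀ a b c d, G.Adj a b → G.Adj b c → G.Adj a d → G.Adj d c → a ≠ c → b = d := by
    intro a b c d hab hbc had hdc hac
    have h := GY64.path_unique hg (Walk.cons hab (Walk.cons hbc Walk.nil))
      (Walk.cons had (Walk.cons hdc Walk.nil))
      (by simp [hab.ne, hbc.ne, hac]) (by simp [had.ne, hdc.ne, hac]) (by simp)
    have := congrArg Walk.support h
    simpa using this
  have c5 : ∀ a b c d e, G.Adj a b → G.Adj b c → G.Adj c d → G.Adj d e → G.Adj e a → False := by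
    intro a b c d e hab hbc hcd hde hea
    by_cases hac : a = c
    · subst hac; exact c3 _ _ _ hcd hde hea
    by_cases had : a = d
    · subst had; exact c3 _ _ _ hab hbc hcd
    by_cases hec : e = c
    · subst hec; exact c3 _ _ _ hab hbc hea
    have h := GY64.path_unique hg (Walk.cons hab (Walk.cons hbc Walk.nil))
      (Walk.cons hea.symm (Walk.cons hde.symm (Walk.cons hcd.symm Walk.nil)))
      (by simp [hab.ne, hbc.ne, hac]) (by simp [hea.ne', hde.ne', hcd.ne', hac, had, hec])
      (by simp)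
    have := congrArg Walk.length h
    simp at this
  refine ⟨c3, c4, c5, ?_⟩
  intro a b c d e f hab hbc hcd hde hef hfa hac hce hea
  by_contra hcon
  push Not at hcon
  obtain ⟨hbd, hdf, hfb⟩ := hcon
  have had : a ≠ d := by rintro rfl; exact c3 _ _ _ hab hbc hcd
  have h := GY64.path_unique hg (Walk.cons hab (Walk.cons hbc (Walk.cons hcd Walk.nil)))
    (Walk.cons hfa.symm (Walk.cons hef.symm (Walk.cons hde.symm Walk.nil)))
    (by simp [hab.ne, hbc.ne, hcd.ne, hac, had, hbd])
    (by simp [hfa.ne', hef.ne', hde.ne', hea.symm, had, hdf.symm])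
    (by simp)
  have := congrArg Walk.support h
  simp at this
  exact hfb this.1.symm

variable {G : SimpleGraph V}

/-- two closed stars share at most two vertices, and then these are the two centres -/
theorem two_common (hG : NoShort G) {x y a b : V} (hxy : x ≠ y) (hab : a ≠ b)
    (ha : Cl G x a) (hb : Cl G x b) (ha' : Cl G y a) (hb' : Cl G y b) :
    (a = x ∧ b = y) ∨ (a = y ∧ b = x) := by
  rcases ha with rfl | ha
  · rcases ha' with h | ha'
    · exact absurd h hxy
    · rcases hb' with rfl | hb'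
      · left; exact ⟨rfl, rfl⟩
      · rcases hb with h | hb
        · exact absurd h.symm hab
        · exact (hG.c3 _ _ _ ha'.symm hb' hb.symm).elim
  · rcases ha' with rfl | ha'
    · rcases hb with rfl | hb
      · right; exact ⟨rfl, rfl⟩
      · rcases hb' with h | hb'
        · exact absurd h.symm hab
        · exact (hG.c3 _ _ _ ha hb' hb.symm).elim
    · rcases hb with rfl | hb
      · rcases hb' with h | hb'
        · exact absurd h hxy
        · exact (hG.c3 _ _ _ ha' ha.symm hb'.symm).elim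
      · rcases hb' with rfl | hb'
        · exact (hG.c3 _ _ _ ha ha'.symm hb.symm).elim
        · exact absurd (hG.c4 _ _ _ _ ha ha'.symm hb hb'.symm hxy) hab

theorem centre_unique (hG : NoShort G) {x y a b c : V} (hab : a ≠ b) (hac : a ≠ c) (hbc : b ≠ c)
    (ha : Cl G x a) (hb : Cl G x b) (hc : Cl G x c)
    (ha' : Cl G y a) (hb' : Cl G y b) (hc' : Cl G y c) : x = y := by
  by_contra hxy
  rcases two_common hG hxy hab ha hb ha' hb' with ⟨h1, h2⟩ | ⟨h1, h2⟩
  · rcases two_common hG hxy hac ha hc ha' hc' with ⟨h3, h4⟩ | ⟨h3, h4⟩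
    · exact hbc (h2.trans h4.symm)
    · exact hxy (h1.symm.trans h3)
  · rcases two_common hG hxy hac ha hc ha' hc' with ⟨h3, h4⟩ | ⟨h3, h4⟩
    · exact hxy (h3.symm.trans h1)
    · exact hbc (h2.trans h4.symm)

theorem centre_three (hG : NoShort G) {u v w : V} (huv : u ≠ v) (huw : u ≠ w) (hvw : v ≠ w)
    (h1 : Nr G u v) (h2 : Nr G u w) (h3 : Nr G v w) :
    ∃ x, Cl G x u ∧ Cl G x v ∧ Cl G x w := by
  -- if `a ~ b` then a common closed star exists
  have key : ∀ a b c : V, a ≠ c → b ≠ c → G.Adj a b → Nr G a c → Nr G b c →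
      ∃ x, Cl G x a ∧ Cl G x b ∧ Cl G x c := by
    intro a b c _ _ hab hac hbc
    rcases hac with hac | ⟨y, hay, hyc⟩
    · exact ⟨a, Or.inl rfl, Or.inr hab, Or.inr hac⟩
    · rcases hbc with hbc | ⟨z, hbz, hzc⟩
      · exact ⟨b, Or.inr hab.symm, Or.inl rfl, Or.inr hbc⟩
      · exact (hG.c5 _ _ _ _ _ hab hbz hzc hyc.symm hay.symm).elim
  by_cases a1 : G.Adj u v
  · exact key u v w huw hvw a1 h2 h3
  by_cases a2 : G.Adj u w
  · obtain ⟨x, q1, q2, q3⟩ := key u w v huv hvw.symm a2 h1 h3.symm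
    exact ⟨x, q1, q3, q2⟩
  by_cases a3 : G.Adj v w
  · obtain ⟨x, q1, q2, q3⟩ := key v w u huv.symm huw.symm a3 h1.symm h2.symm
    exact ⟨x, q3, q1, q2⟩
  obtain ⟨p, hup, hpv⟩ := h1.resolve_left a1
  obtain ⟨q, huq, hqw⟩ := h2.resolve_left a2
  obtain ⟨r, hvr, hrw⟩ := h3.resolve_left a3
  -- cycle u p v r w q
  rcases hG.c6 u p v r w q hup hpv hvr hrw hqw.symm huq.symm huv hvw huw.symm with h | h | h
  · subst h; exact ⟨p, Or.inr hup.symm, Or.inr hpv, Or.inr hrw⟩
  · subst h; exact ⟨r, Or.inr huq.symm, Or.inr hvr.symm, Or.inr hrw⟩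
  · subst h; exact ⟨q, Or.inr huq.symm, Or.inr hpv, Or.inr hqw⟩

/-- A set of at least three vertices pairwise at distance at most two lies in a closed star. -/
theorem centre_set (hG : NoShort G) {T : Finset V} (hT : 3 ≤ T.card)
    (h : ∀ a ∈ T, ∀ b ∈ T, a ≠ b → Nr G a b) : ∃ x, ∀ a ∈ T, Cl G x a := by
  classical
  obtain ⟨a, b, c, ha, hb, hc, hab, hac, hbc⟩ := Finset.two_lt_card_iff.mp hT
  obtain ⟨x, xa, xb, xc⟩ := centre_three hG hab hac hbc (h a ha b hb hab) (h a ha c hc hac)
    (h b hb c hc hbc)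
  refine ⟨x, fun d hd => ?_⟩
  by_cases da : d = a
  · subst da; exact xa
  by_cases db : d = b
  · subst db; exact xb
  by_cases dc : d = c
  · subst dc; exact xc
  obtain ⟨y, ya, yb, yd⟩ := centre_three hG hab (Ne.symm da) (Ne.symm db) (h a ha b hb hab)
    (h a ha d hd (Ne.symm da)) (h b hb d hd (Ne.symm db))
  by_cases hxy : x = y
  · subst hxy; exact yd
  obtain ⟨z, za, zc, zd⟩ := centre_three hG hac (Ne.symm da) (Ne.symm dc) (h a ha c hc hac)
    (h a ha d hd (Ne.symm da)) (h c hc d hd (Ne.symm dc))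
  by_cases hxz : x = z
  · subst hxz; exact zd
  obtain ⟨w, wb, wc, wd⟩ := centre_three hG hbc (Ne.symm db) (Ne.symm dc) (h b hb c hc hbc)
    (h b hb d hd (Ne.symm db)) (h c hc d hd (Ne.symm dc))
  by_cases hxw : x = w
  · subst hxw; exact wd
  exfalso
  rcases two_common hG hxy hab xa xb ya yb with ⟨h1, h2⟩ | ⟨h1, h2⟩
  · rcases two_common hG hxw hbc xb xc wb wc with ⟨h3, h4⟩ | ⟨h3, h4⟩
    · exact hab (h1.trans h3.symm)
    · exact hac (h1.trans h4.symm)
  · rcases two_common hG hxz hac xa xc za zc with ⟨h3, h4⟩ | ⟨h3, h4⟩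
    · exact hab (h3.trans h2.symm)
    · exact hbc (h2.trans h4.symm)

/-- uniqueness of the centre for sets -/
theorem centre_set_unique (hG : NoShort G) {T : Finset V} (hT : 3 ≤ T.card) {x y : V}
    (hx : ∀ a ∈ T, Cl G x a) (hy : ∀ a ∈ T, Cl G y a) : x = y := by
  obtain ⟨a, b, c, ha, hb, hc, hab, hac, hbc⟩ := Finset.two_lt_card_iff.mp hT
  exact centre_unique hG hab hac hbc (hx a ha) (hx b hb) (hx c hc) (hy a ha) (hy b hb) (hy c hc)

end GY7
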