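import Pool.Agent.GY7.Energy
import Pool.Agent.GY7.Girth
import Pool.Agent.GY7.Brooks

set_option autoImplicit false
set_option linter.unusedSectionVars false

/-!
# No four-clique in a minimal conflict graph (girth at least seven)
-/

namespace GY7

open Finset

variable {V : Type*} [Fintype V] [DecidableEq V]

/-- The conflict system of the `L(2,1)` problem with `t` columns. -/
def sys (G : SimpleGraph V) (t : ℕ) : Sys V (Fin t) where
  C j k u v := u ≠ v ∧ ((j = k ∧ Nr G u v) ∨
    ((j.val + 1 = k.val ∨ k.val + 1 = j.val) ∧ G.Adj u v))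
  symm := by
    rintro j k u v ⟨h1, h2⟩
    refine ⟨h1.symm, ?_⟩
    rcases h2 with ⟨h2, h3⟩ | ⟨h2, h3⟩
    · exact Or.inl ⟨h2.symm, h3.symm⟩
    · exact Or.inr ⟨h2.symm, h3.symm⟩
  irr := by rintro j k u ⟨h1, -⟩; exact h1 rfl

theorem sys_C {G : SimpleGraph V} {t : ℕ} {j k : Fin t} {u v : V} :
    (sys G t).C j k u v ↔ u ≠ v ∧ ((j = k ∧ Nr G u v) ∨
    ((j.val + 1 = k.val ∨ k.val + 1 = j.val) ∧ G.Adj u v)) := Iff.rfl

theorem sys_nr {G : SimpleGraph V} {t : ℕ} {j k : Fin t} {u v : V}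
    (h : (sys G t).C j k u v) : Nr G u v := by
  rcases (sys_C.mp h).2 with h | h
  · exact h.2
  · exact Or.inl h.2

/-- the vertices near `v` -/
theorem card_near (G : SimpleGraph V) [DecidableRel G.Adj] {Δ : ℕ} (hΔ : ∀ v, G.degree v ≤ Δ)
    (v : V) : open Classical in (univ.filter (fun u => u ≠ v ∧ Nr G v u)).card ≤ Δ ^ 2 := by
  classical
  have h1 : (univ.filter (fun u => u ≠ v ∧ Nr G v u)) ⊆
      G.neighborFinset v ∪ (G.neighborFinset v).biUnion (fun x => (G.neighborFinset x).erase v) := by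
    intro u hu
    obtain ⟨-, huv, h⟩ := mem_filter.mp hu
    rcases h with h | ⟨x, h1, h2⟩
    · exact mem_union_left _ (by simpa using h)
    · refine mem_union_right _ (mem_biUnion.mpr ⟨x, by simpa using h1, ?_⟩)
      exact mem_erase.mpr ⟨huv, by simpa using h2⟩
  have h2 : ((G.neighborFinset v).biUnion (fun x => (G.neighborFinset x).erase v)).card
      ≤ G.degree v * (Δ - 1) := by
    refine (card_biUnion_le).trans ?_
    rw [← G.card_neighborFinset_eq_degree, ← smul_eq_mul, ← Finset.sum_const]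
    apply Finset.sum_le_sum
    intro x hx
    have hvx : v ∈ G.neighborFinset x := by
      rw [SimpleGraph.mem_neighborFinset] at hx ⊢; exact hx.symm
    rw [card_erase_of_mem hvx, G.card_neighborFinset_eq_degree]
    have := hΔ x
    omega
  have h3 := (card_le_card h1).trans (card_union_le _ _)
  rw [G.card_neighborFinset_eq_degree] at h3
  have h4 := hΔ v
  have h5 : G.degree v * (Δ - 1) ≤ Δ * (Δ - 1) := Nat.mul_le_mul_right _ h4
  have h6 : Δ + Δ * (Δ - 1) = Δ ^ 2 := by
    cases Δ with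
    | zero => rfl
    | succ m => simp only [Nat.add_sub_cancel]; ring
  omega

theorem sum_cost (G : SimpleGraph V) [DecidableRel G.Adj] {Δ t : ℕ} (hΔ : ∀ v, G.degree v ≤ Δ)
    (ψ : V → Fin t) (v : V) : ∑ k, (sys G t).cost ψ v k ≤ Δ ^ 2 + 2 * Δ := by
  classical
  have h0 : ∑ k, (sys G t).cost ψ v k
      = ∑ u, (univ.filter (fun k => (sys G t).C k (ψ u) v u)).card := by
    unfold Sys.cost
    simp_rw [Finset.card_filter]
    rw [Finset.sum_comm]
  have h1 : ∀ u, (univ.filter (fun k => (sys G t).C k (ψ u) v u)).card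
      ≤ (if u ≠ v ∧ Nr G v u then 1 else 0) + (if G.Adj v u then 2 else 0) := by
    intro u
    by_cases hadj : G.Adj v u
    · have huv : u ≠ v := hadj.ne'
      have hN : Nr G v u := Or.inl hadj
      rw [if_pos ⟨huv, hN⟩, if_pos hadj]
      have h2 : ((univ.filter (fun k => (sys G t).C k (ψ u) v u)).image
          (fun k : Fin t => k.val)) ⊆ {(ψ u).val, (ψ u).val - 1, (ψ u).val + 1} := by
        intro n hn
        obtain ⟨k, hk, rfl⟩ := mem_image.mp hn
        have := (sys_C.mp (mem_filter.mp hk).2).2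
        simp only [mem_insert, mem_singleton]
        rcases this with ⟨h, -⟩ | ⟨h, -⟩
        · left; rw [h]
        · omega
      have h3 := card_le_card h2
      rw [card_image_of_injective _ Fin.val_injective] at h3
      have h4 := Finset.card_le_three (a := (ψ u).val) (b := (ψ u).val - 1) (c := (ψ u).val + 1)
      omega
    · rw [if_neg hadj]
      by_cases hN : u ≠ v ∧ Nr G v u
      · rw [if_pos hN]
        have h2 : (univ.filter (fun k => (sys G t).C k (ψ u) v u)) ⊆ {ψ u} := by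
          intro k hk
          have := (sys_C.mp (mem_filter.mp hk).2).2
          rcases this with ⟨h, -⟩ | ⟨-, h⟩
          · simp [h]
          · exact absurd h hadj
        simpa using card_le_card h2
      · rw [if_neg hN]
        have h2 : (univ.filter (fun k => (sys G t).C k (ψ u) v u)) = ∅ := by
          rw [filter_eq_empty_iff]
          intro k _ hk
          exact hN ⟨(sys_C.mp hk).1.symm, sys_nr hk⟩
        rw [h2]; simp
  rw [h0]
  refine (Finset.sum_le_sum (fun u _ => h1 u)).trans ?_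
  rw [Finset.sum_add_distrib, ← Finset.card_filter]
  have h5 := card_near G hΔ v
  have h6 : ∑ u, (if G.Adj v u then 2 else 0) = 2 * G.degree v := by
    rw [← Finset.sum_filter, Finset.sum_const, smul_eq_mul, mul_comm,
      ← G.card_neighborFinset_eq_degree]
    congr 2
    ext u; simp
  rw [h6]
  have h7 := hΔ v
  omega

theorem cost_le_three (G : SimpleGraph V) [DecidableRel G.Adj] {Δ t : ℕ}
    (hΔ : ∀ v, G.degree v ≤ Δ) (ht : 3 * Δ ^ 2 + 7 * Δ + 3 ≤ 12 * t) (φ : V → Fin t)
    (hφ : ∀ χ, (sys G t).energy φ ≤ (sys G t).energy χ) (v : V) :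
    (sys G t).cost φ v (φ v) ≤ 3 := by
  by_contra hcon
  push Not at hcon
  have h1 : ∑ k : Fin t, 4 ≤ ∑ k, (sys G t).cost φ v k := by
    apply Finset.sum_le_sum
    intro k _
    exact (by omega : 4 ≤ (sys G t).cost φ v (φ v)).trans ((sys G t).min_cost hφ v k)
  have h2 := sum_cost G hΔ φ v
  simp only [Finset.sum_const, Finset.card_univ, Fintype.card_fin, smul_eq_mul] at h1
  omega

/-! ### components centred at a vertex -/

/-- `u` lies in a complete component of `H` with at least three vertices, contained in `B` and in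
the closed star at `x`. -/
def CompAt (G : SimpleGraph V) (B : Finset V) (H : SimpleGraph V) (x u : V) : Prop :=
  ∃ S : Finset V, u ∈ S ∧ S ⊆ B ∧ 3 ≤ S.card ∧ Clq H S ∧ (∀ a ∈ S, ∀ b, H.Adj a b → b ∈ S) ∧
    ∀ a ∈ S, Cl G x a

theorem clq_closed_eq {H : SimpleGraph V} {S T : Finset V} (hS : Clq H S) (hT : Clq H T)
    (hS' : ∀ a ∈ S, ∀ b, H.Adj a b → b ∈ S) (hT' : ∀ a ∈ T, ∀ b, H.Adj a b → b ∈ T)
    {u : V} (huS : u ∈ S) (huT : u ∈ T) : S = T := by
  ext a
  constructor
  · intro ha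
    by_cases h : a = u
    · rw [h]; exact huT
    · exact hT' u huT a (hS u huS a ha (Ne.symm h))
  · intro ha
    by_cases h : a = u
    · rw [h]; exact huS
    · exact hS' u huS a (hT u huT a ha (Ne.symm h))

theorem CompAt.unique {G : SimpleGraph V} (hG : NoShort G) {B : Finset V} {H : SimpleGraph V}
    {x y u : V} (hx : CompAt G B H x u) (hy : CompAt G B H y u) : x = y := by
  obtain ⟨S, h1, -, h3, h4, h5, h6⟩ := hx
  obtain ⟨T, k1, -, k3, k4, k5, k6⟩ := hy
  have := clq_closed_eq h4 k4 h5 k5 h1 k1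
  subst this
  exact centre_set_unique hG h3 h6 k6

/-- the invariance under a move -/
theorem transfer {G : SimpleGraph V} (hG : NoShort G) {B : Finset V} {H H' : SimpleGraph V}
    {v : V} (hoff : ∀ a b, a ≠ v → b ≠ v → (H.Adj a b ↔ H'.Adj a b))
    (hdeg' : ∀ a (W : Finset V), (∀ w ∈ W, H'.Adj a w) → W.card ≤ 3)
    {T T' : Finset V} (hT4 : T.card = 4) (hT : Clq H T) (hTcl : ∀ a ∈ T, ∀ b, H.Adj a b → b ∈ T)
    (hvT : v ∈ T)
    (hT4' : T'.card = 4) (hT' : Clq H' T') (hTcl' : ∀ a ∈ T', ∀ b, H'.Adj a b → b ∈ T')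
    (hvT' : v ∈ T') (hTB' : T' ⊆ B) (hTB : T ⊆ B)
    (hnr' : ∀ a ∈ T', ∀ b ∈ T', a ≠ b → Nr G a b)
    {x u : V} (huv : u ≠ v) (h : CompAt G B H x u) : CompAt G B H' x u := by
  obtain ⟨S, huS, hSB, hS3, hS, hScl, hSx⟩ := h
  -- star property of `T'`
  have hstar : (∀ a ∈ T'.erase v, Cl G x a) → ∀ a ∈ T', Cl G x a := by
    intro h1
    obtain ⟨y, hy⟩ := centre_set hG (by omega : 3 ≤ T'.card) hnr'
    have h2 : x = y := centre_set_unique hG (T := T'.erase v)
      (by rw [card_erase_of_mem hvT', hT4']) h1 (fun a ha => hy a (mem_of_mem_erase ha))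
    rw [h2]; exact hy
  by_cases hvS : v ∈ S
  · have hST : S = T := clq_closed_eq hS hT hScl hTcl hvS hvT
    subst hST
    by_cases hex : ∃ a ∈ S, a ≠ v ∧ H'.Adj a v
    · obtain ⟨a, haS, hav, haadj⟩ := hex
      have haT' : a ∈ T' := hTcl' v hvT' a haadj.symm
      have hsub : T' ⊆ S := by
        intro b hb
        by_cases hbv : b = v
        · rw [hbv]; exact hvS
        by_cases hba : b = a
        · rw [hba]; exact haS
        · exact hScl a haS b ((hoff a b hav hbv).mpr (hT' a haT' b hb (Ne.symm hba)))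
      have heq : T' = S := eq_of_subset_of_card_le hsub (by rw [hT4, hT4'])
      subst heq
      exact ⟨T', huS, hSB, hS3, hT', hTcl', hSx⟩
    · push Not at hex
      refine ⟨S.erase v, mem_erase.mpr ⟨huv, huS⟩, (erase_subset _ _).trans hSB, ?_, ?_, ?_, ?_⟩
      · rw [card_erase_of_mem hvS, hT4]
      · intro a ha b hb hab
        exact (hoff a b (ne_of_mem_erase ha) (ne_of_mem_erase hb)).mp
          (hS a (mem_of_mem_erase ha) b (mem_of_mem_erase hb) hab)
      · intro a ha b hab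
        have hbv : b ≠ v := by
          rintro rfl
          exact hex a (mem_of_mem_erase ha) (ne_of_mem_erase ha) hab
        exact mem_erase.mpr ⟨hbv, hScl a (mem_of_mem_erase ha) b
          ((hoff a b (ne_of_mem_erase ha) hbv).mpr hab)⟩
      · exact fun a ha => hSx a (mem_of_mem_erase ha)
  · have hnv : ∀ a ∈ S, a ≠ v := by rintro a ha rfl; exact hvS ha
    by_cases hex : ∃ a ∈ S, H'.Adj a v
    · obtain ⟨a, haS, haadj⟩ := hex
      have haT' : a ∈ T' := hTcl' v hvT' a haadj.symm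
      have hav := hnv a haS
      have hsub : T'.erase v ⊆ S := by
        intro b hb
        have hbv := ne_of_mem_erase hb
        by_cases hba : b = a
        · rw [hba]; exact haS
        · exact hScl a haS b ((hoff a b hav hbv).mpr
            (hT' a haT' b (mem_of_mem_erase hb) (Ne.symm hba)))
      have hScard : S.card ≤ 3 := by
        have h1 := hdeg' a (insert v (S.erase a)) (by
          intro w hw
          rcases mem_insert.mp hw with rfl | hw
          · exact haadj
          · exact (hoff a w hav (hnv w (mem_of_mem_erase hw))).mp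
              (hS a haS w (mem_of_mem_erase hw) (ne_of_mem_erase hw).symm))
        rw [card_insert_of_notMem (fun h => hvS (mem_of_mem_erase h)),
          card_erase_of_mem haS] at h1
        omega
      have heq : T'.erase v = S := eq_of_subset_of_card_le hsub (by
        rw [card_erase_of_mem hvT', hT4']; exact hScard)
      refine ⟨T', ?_, hTB', by omega, hT', hTcl', hstar ?_⟩
      · rw [← heq] at huS; exact mem_of_mem_erase huS
      · rw [heq]; exact hSx
    · push Not at hex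
      refine ⟨S, huS, hSB, hS3, ?_, ?_, hSx⟩
      · intro a ha b hb hab
        exact (hoff a b (hnv a ha) (hnv b hb)).mp (hS a ha b hb hab)
      · intro a ha b hab
        have hbv : b ≠ v := by rintro rfl; exact hex a ha hab
        exact hScl a ha b ((hoff a b (hnv a ha) hbv).mpr hab)

/-! ### reachable states -/

/-- the states reachable from `(ψ₀, T₀)` by moves of one vertex of the moving four-clique -/
inductive Reach {K : Type*} [DecidableEq K] (S : Sys V K) (ψ₀ : V → K) (T₀ : Finset V) :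
    (V → K) → Finset V → Prop
  | base : Reach S ψ₀ T₀ ψ₀ T₀
  | step {ψ : V → K} {T : Finset V} {v : V} {k : K} {T' : Finset V} (h : Reach S ψ₀ T₀ ψ T)
      (hv : v ∈ T) (hk : S.cost ψ v k = 3) (hT' : T' ∈ S.k4 (Function.update ψ v k))
      (hv' : v ∈ T') : Reach S ψ₀ T₀ (Function.update ψ v k) T'

section

variable (G : SimpleGraph V) [DecidableRel G.Adj] {Δ t : ℕ}

theorem reach_inv (hΔ : ∀ v, G.degree v ≤ Δ) (ht : 3 * Δ ^ 2 + 7 * Δ + 3 ≤ 12 * t)
    {ψ₀ : V → Fin t} {T₀ : Finset V} (hmin : (sys G t).IsMin ψ₀) (hT₀ : T₀ ∈ (sys G t).k4 ψ₀)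
    {ψ : V → Fin t} {T : Finset V} (h : Reach (sys G t) ψ₀ T₀ ψ T) :
    (sys G t).IsMin ψ ∧ T ∈ (sys G t).k4 ψ := by
  induction h with
  | base => exact ⟨hmin, hT₀⟩
  | step h hv hk hT' hv' ih =>
    exact ⟨((sys G t).move ih.1 (cost_le_three G hΔ ht) ih.2 hv hk).1, hT'⟩

open Classical in
/-- the moving region -/
noncomputable def region (t : ℕ) (ψ₀ : V → Fin t) (T₀ : Finset V) : Finset V :=
  univ.filter (fun u => ∃ ψ T, Reach (sys G t) ψ₀ T₀ ψ T ∧ u ∈ T)

theorem subset_region {ψ₀ : V → Fin t} {T₀ : Finset V}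
    {ψ : V → Fin t} {T : Finset V} (h : Reach (sys G t) ψ₀ T₀ ψ T) : T ⊆ region G t ψ₀ T₀ := by
  classical
  intro u hu
  exact mem_filter.mpr ⟨mem_univ _, ψ, T, h, hu⟩

open Classical in
/-- the vertices of the region lying in components centred at `x` -/
noncomputable def AA (t : ℕ) (B : Finset V) (ψ : V → Fin t) (x : V) : Finset V :=
  univ.filter (fun u => CompAt G B ((sys G t).H ψ) x u)

theorem mem_AA {B : Finset V} {ψ : V → Fin t} {x u : V} :
    u ∈ AA G t B ψ x ↔ CompAt G B ((sys G t).H ψ) x u := by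
  classical
  simp [AA]

theorem deg_le (ψ : V → Fin t) (h3 : ∀ v, (sys G t).cost ψ v (ψ v) ≤ 3)
    (a : V) (W : Finset V) (hW : ∀ w ∈ W, ((sys G t).H ψ).Adj a w) : W.card ≤ 3 := by
  classical
  refine le_trans (Finset.card_le_card ?_) (h3 a)
  intro w hw
  exact mem_filter.mpr ⟨mem_univ _, hW w hw⟩

/-- membership is unchanged by a move, away from the moving vertex -/
theorem AA_move (hG : NoShort G) {B : Finset V} {ψ : V → Fin t} {v : V} {k : Fin t}
    {T T' : Finset V} (h3 : ∀ v, (sys G t).cost ψ v (ψ v) ≤ 3)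
    (h3' : ∀ w, (sys G t).cost (Function.update ψ v k) w (Function.update ψ v k w) ≤ 3)
    (hT : T ∈ (sys G t).k4 ψ) (hvT : v ∈ T) (hTB : T ⊆ B)
    (hT' : T' ∈ (sys G t).k4 (Function.update ψ v k)) (hvT' : v ∈ T') (hTB' : T' ⊆ B)
    (x : V) : (AA G t B ψ x).erase v = (AA G t B (Function.update ψ v k) x).erase v := by
  classical
  have q := (sys G t).mem_k4.mp hT
  have q' := (sys G t).mem_k4.mp hT'
  have hnr : ∀ a ∈ T, ∀ b ∈ T, a ≠ b → Nr G a b := fun a ha b hb hab => sys_nr (q.2 a ha b hb hab)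
  have hnr' : ∀ a ∈ T', ∀ b ∈ T', a ≠ b → Nr G a b :=
    fun a ha b hb hab => sys_nr (q'.2 a ha b hb hab)
  have hcl : ∀ a ∈ T, ∀ b, ((sys G t).H ψ).Adj a b → b ∈ T :=
    fun a ha b hab => (sys G t).closed4 h3 hT ha hab
  have hcl' : ∀ a ∈ T', ∀ b, ((sys G t).H (Function.update ψ v k)).Adj a b → b ∈ T' :=
    fun a ha b hab => (sys G t).closed4 h3' hT' ha hab
  ext u
  simp only [mem_erase, mem_AA]
  constructor
  · rintro ⟨huv, h⟩
    refine ⟨huv, transfer hG (fun a b ha hb => ((sys G t).H_update_of_ne ψ v k ha hb).symm)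
      (deg_le G _ h3') q.1 q.2 hcl hvT q'.1 q'.2 hcl' hvT' hTB' hTB hnr' huv h⟩
  · rintro ⟨huv, h⟩
    refine ⟨huv, transfer hG (fun a b ha hb => (sys G t).H_update_of_ne ψ v k ha hb)
      (deg_le G _ h3) q'.1 q'.2 hcl' hvT' q.1 q.2 hcl hvT hTB hTB' hnr huv h⟩

/-- all vertices of the moving clique have the same centres -/
theorem AA_erase_card {B : Finset V} {ψ : V → Fin t}
    {T : Finset V} (h3 : ∀ v, (sys G t).cost ψ v (ψ v) ≤ 3)
    (hT : T ∈ (sys G t).k4 ψ) {v w : V} (hv : v ∈ T) (hw : w ∈ T) (x : V) :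
    ((AA G t B ψ x).erase v).card = ((AA G t B ψ x).erase w).card := by
  classical
  have q := (sys G t).mem_k4.mp hT
  have hcl : ∀ a ∈ T, ∀ b, ((sys G t).H ψ).Adj a b → b ∈ T :=
    fun a ha b hab => (sys G t).closed4 h3 hT ha hab
  have key : ∀ a ∈ T, ∀ b ∈ T, a ∈ AA G t B ψ x → b ∈ AA G t B ψ x := by
    intro a ha b hb h
    rw [mem_AA] at h ⊢
    obtain ⟨S, h1, h2, h3, h4, h5, h6⟩ := h
    have : S = T := clq_closed_eq h4 q.2 h5 hcl h1 ha
    exact ⟨S, by rw [this]; exact hb, h2, h3, h4, h5, h6⟩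
  by_cases h : v ∈ AA G t B ψ x
  · rw [card_erase_of_mem h, card_erase_of_mem (key v hv w hw h)]
  · rw [erase_eq_of_notMem h, erase_eq_of_notMem (fun h' => h (key w hw v hv h'))]

theorem reach_card (hG : NoShort G) (hΔ : ∀ v, G.degree v ≤ Δ)
    (ht : 3 * Δ ^ 2 + 7 * Δ + 3 ≤ 12 * t)
    {ψ₀ : V → Fin t} {T₀ : Finset V} (hmin : (sys G t).IsMin ψ₀) (hT₀ : T₀ ∈ (sys G t).k4 ψ₀)
    {v₀ : V} (hv₀ : v₀ ∈ T₀)
    {ψ : V → Fin t} {T : Finset V} (h : Reach (sys G t) ψ₀ T₀ ψ T) (x : V) :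
    ∀ v ∈ T, ((AA G t (region G t ψ₀ T₀) ψ x).erase v).card
      = ((AA G t (region G t ψ₀ T₀) ψ₀ x).erase v₀).card := by
  classical
  induction h with
  | base =>
    intro v hv
    exact AA_erase_card G (cost_le_three G hΔ ht ψ₀ hmin.1) hT₀ hv hv₀ x
  | @step ψ T v k T' h hv hk hT' hv' ih =>
    intro w hw
    have hinv := reach_inv G hΔ ht hmin hT₀ h
    have hstep := Reach.step h hv hk hT' hv'
    have hinv' := reach_inv G hΔ ht hmin hT₀ hstep
    have h3 := cost_le_three G hΔ ht ψ hinv.1.1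
    have h3' := cost_le_three G hΔ ht _ hinv'.1.1
    rw [AA_erase_card G h3' hT' hw hv' x,
      ← AA_move G hG h3 h3' hinv.2 hv (subset_region G h) hT' hv' (subset_region G hstep) x]
    exact ih v hv

/-- the local inequality at a vertex of the moving clique -/
theorem local_count (hG : NoShort G) (hΔ : ∀ v, G.degree v ≤ Δ)
    (ht : 3 * Δ ^ 2 + 7 * Δ + 3 ≤ 12 * t)
    {ψ₀ : V → Fin t} {T₀ : Finset V} (hmin : (sys G t).IsMin ψ₀) (hT₀ : T₀ ∈ (sys G t).k4 ψ₀)
    {ψ : V → Fin t} {T : Finset V} (h : Reach (sys G t) ψ₀ T₀ ψ T) {v : V} (hv : v ∈ T) :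
    12 * t ≤ 3 * Δ ^ 2 + 6 * Δ
      + ∑ x ∈ G.neighborFinset v, ((AA G t (region G t ψ₀ T₀) ψ x).erase v).card
      + 3 * ((AA G t (region G t ψ₀ T₀) ψ v).erase v).card := by
  classical
  set B := region G t ψ₀ T₀ with hB
  have hinv := reach_inv G hΔ ht hmin hT₀ h
  have h3 := cost_le_three G hΔ ht ψ hinv.1.1
  have hcv : ∀ k, 3 ≤ (sys G t).cost ψ v k := by
    intro k
    have h1 := (sys G t).clq_card_le ((sys G t).mem_k4.mp hinv.2).2 hv
    rw [((sys G t).mem_k4.mp hinv.2).1] at h1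
    have h2 := (sys G t).min_cost hinv.1.1 v k
    omega
  set NE : Finset (Fin t) := univ.filter (fun k => (sys G t).cost ψ v k = 3) with hNE
  have hex : ∀ k : Fin t, ∃ (Tk : Finset V) (x : V), k ∈ NE →
      (Tk ∈ (sys G t).k4 (Function.update ψ v k) ∧ v ∈ Tk ∧ Tk ⊆ B ∧ (∀ a ∈ Tk, Cl G x a) ∧
        ∀ w, (sys G t).cost (Function.update ψ v k) w (Function.update ψ v k w) ≤ 3) := by
    intro k
    by_cases hk : k ∈ NE
    · have hk' := (mem_filter.mp hk).2
      obtain ⟨hm, Tk, hTk, hvTk⟩ := (sys G t).move hinv.1 (cost_le_three G hΔ ht) hinv.2 hv hk'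
      have q := (sys G t).mem_k4.mp hTk
      obtain ⟨x, hx⟩ := centre_set hG (by omega : 3 ≤ Tk.card)
        (fun a ha b hb hab => sys_nr (q.2 a ha b hb hab))
      exact ⟨Tk, x, fun _ => ⟨hTk, hvTk, subset_region G (Reach.step h hv hk' hTk hvTk), hx,
        cost_le_three G hΔ ht _ hm.1⟩⟩
    · exact ⟨∅, v, fun h => absurd h hk⟩
  choose TT xx hTT using hex
  -- the vertices of `TT k` lie in the component set
  have hsub : ∀ k ∈ NE, ∀ u ∈ TT k, u ≠ v → u ∈ (AA G t B ψ (xx k)).erase v := by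
    intro k hk u hu huv
    obtain ⟨q1, q2, q3, q4, q5⟩ := hTT k hk
    rw [AA_move G hG h3 q5 hinv.2 hv (subset_region G h) q1 q2 q3 (xx k)]
    refine mem_erase.mpr ⟨huv, (mem_AA G).mpr ⟨TT k, hu, q3, ?_, ((sys G t).mem_k4.mp q1).2,
      fun a ha b hab => (sys G t).closed4 q5 q1 ha hab, q4⟩⟩
    rw [((sys G t).mem_k4.mp q1).1]; norm_num
  have hC : ∀ k ∈ NE, ∀ u ∈ TT k, u ≠ v → (sys G t).C k (ψ u) v u := by
    intro k hk u hu huv
    obtain ⟨q1, q2, q3, q4, q5⟩ := hTT k hk
    exact ((sys G t).H_update_self ψ v k huv).mp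
      (((sys G t).mem_k4.mp q1).2 v q2 u hu huv.symm)
  have hcardT : ∀ k ∈ NE, ((TT k).erase v).card = 3 := by
    intro k hk
    obtain ⟨q1, q2, q3, q4, q5⟩ := hTT k hk
    rw [card_erase_of_mem q2, ((sys G t).mem_k4.mp q1).1]
  have habove : ∀ x, ∀ k ∈ NE.filter (fun k => xx k = x),
      3 ≤ (((AA G t B ψ x).erase v).bipartiteAbove (fun k u => u ∈ TT k) k).card := by
    intro x k hk
    obtain ⟨hk1, hk2⟩ := mem_filter.mp hk
    rw [← hcardT k hk1]
    apply card_le_card
    intro u hu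
    rw [Finset.mem_bipartiteAbove]
    refine ⟨?_, mem_of_mem_erase hu⟩
    rw [← hk2]
    exact hsub k hk1 u (mem_of_mem_erase hu) (ne_of_mem_erase hu)
  -- centres different from `v`
  have hx1 : ∀ x ∈ G.neighborFinset v, 3 * (NE.filter (fun k => xx k = x)).card
      ≤ ((AA G t B ψ x).erase v).card := by
    intro x hx
    rw [SimpleGraph.mem_neighborFinset] at hx
    have h1 := Finset.card_mul_le_card_mul (fun k u => u ∈ TT k) (habove x) (n := 1) (by
      intro u hu
      have huv := ne_of_mem_erase hu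
      rw [Finset.card_le_one]
      intro k hk k' hk'
      rw [Finset.mem_bipartiteBelow] at hk hk'
      obtain ⟨hkN, hku⟩ := hk
      obtain ⟨hkN', hku'⟩ := hk'
      obtain ⟨hk1, hk2⟩ := mem_filter.mp hkN
      obtain ⟨hk1', hk2'⟩ := mem_filter.mp hkN'
      obtain ⟨q1, q2, q3, q4, q5⟩ := hTT k hk1
      obtain ⟨q1', q2', q3', q4', q5'⟩ := hTT k' hk1'
      have hTsub : ∀ b ∈ TT k, b ∈ TT k' := by
        intro b hb
        by_cases hbv : b = v
        · rw [hbv]; exact q2'
        by_cases hbu : b = u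
        · rw [hbu]; exact hku'
        refine (sys G t).closed4 q5' q1' hku' ?_
        rw [(sys G t).H_update_of_ne ψ v k' huv hbv, ← (sys G t).H_update_of_ne ψ v k huv hbv]
        exact ((sys G t).mem_k4.mp q1).2 u hku b hb (Ne.symm hbu)
      obtain ⟨u', hu'⟩ : (((TT k).erase v).erase x).Nonempty := by
        rw [← card_pos]
        have h1 := hcardT k hk1
        have h2 := Finset.pred_card_le_card_erase (s := (TT k).erase v) (a := x)
        omega
      have hu'x := ne_of_mem_erase hu'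
      have hu'v := ne_of_mem_erase (mem_of_mem_erase hu')
      have hu'T := mem_of_mem_erase (mem_of_mem_erase hu')
      have hxu' : G.Adj x u' := by
        rcases q4 u' hu'T with h | h
        · rw [hk2] at h; exact absurd h hu'x
        · rw [hk2] at h; exact h
      have hnadj : ¬ G.Adj v u' := fun h => hG.c3 v x u' hx hxu' h.symm
      have e1 : k = ψ u' := by
        rcases (sys_C.mp (hC k hk1 u' hu'T hu'v)).2 with h | h
        · exact h.1
        · exact absurd h.2 hnadj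
      have e2 : k' = ψ u' := by
        rcases (sys_C.mp (hC k' hk1' u' (hTsub u' hu'T) hu'v)).2 with h | h
        · exact h.1
        · exact absurd h.2 hnadj
      rw [e1, e2])
    omega
  -- centre `v`
  have hx2 : (NE.filter (fun k => xx k = v)).card ≤ ((AA G t B ψ v).erase v).card := by
    have h1 := Finset.card_mul_le_card_mul (fun k u => u ∈ TT k) (habove v) (n := 3) (by
      intro u hu
      have huv := ne_of_mem_erase hu
      have h2 : (((NE.filter (fun k => xx k = v)).bipartiteBelow (fun k u => u ∈ TT k) u).image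
          (fun k : Fin t => k.val)) ⊆ {(ψ u).val, (ψ u).val - 1, (ψ u).val + 1} := by
        intro n hn
        obtain ⟨k, hk, rfl⟩ := mem_image.mp hn
        rw [Finset.mem_bipartiteBelow] at hk
        have := (sys_C.mp (hC k (mem_filter.mp hk.1).1 u hk.2 huv)).2
        simp only [mem_insert, mem_singleton]
        rcases this with ⟨h, -⟩ | ⟨h, -⟩
        · left; rw [h]
        · omega
      have h3 := card_le_card h2
      rw [card_image_of_injective _ Fin.val_injective] at h3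
      exact h3.trans Finset.card_le_three)
    omega
  have hfib : NE.card = ∑ x ∈ insert v (G.neighborFinset v),
      (NE.filter (fun k => xx k = x)).card := by
    apply Finset.card_eq_sum_card_fiberwise
    intro k hk
    obtain ⟨q1, q2, q3, q4, q5⟩ := hTT k hk
    rcases q4 v q2 with h | h
    · rw [← h]; simp
    · refine mem_coe.mpr (mem_insert_of_mem ?_)
      rw [SimpleGraph.mem_neighborFinset]; exact h.symm
  rw [Finset.sum_insert (by simp)] at hfib
  have h4 : 3 * NE.card ≤ 3 * ((AA G t B ψ v).erase v).card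
      + ∑ x ∈ G.neighborFinset v, ((AA G t B ψ x).erase v).card := by
    rw [hfib, mul_add, Finset.mul_sum]
    exact add_le_add (Nat.mul_le_mul_left _ hx2) (Finset.sum_le_sum hx1)
  have h5 : 4 * t ≤ (∑ k, (sys G t).cost ψ v k) + NE.card := by
    rw [hNE, Finset.card_filter, ← Finset.sum_add_distrib]
    have : ∑ k : Fin t, 4 = 4 * t := by simp [mul_comm]
    rw [← this]
    apply Finset.sum_le_sum
    intro k _
    have := hcv k
    by_cases hk : (sys G t).cost ψ v k = 3
    · rw [if_pos hk]; omega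
    · rw [if_neg hk]; omega
  have h6 := sum_cost G hΔ ψ v
  omega

/-- **No four-clique.** -/
theorem no_k4 (hG : NoShort G) (hΔ : ∀ v, G.degree v ≤ Δ)
    (ht : 3 * Δ ^ 2 + 7 * Δ + 3 ≤ 12 * t)
    {ψ₀ : V → Fin t} (hmin : (sys G t).IsMin ψ₀) : ∀ T₀, T₀ ∉ (sys G t).k4 ψ₀ := by
  classical
  intro T₀ hT₀
  obtain ⟨v₀, hv₀⟩ : T₀.Nonempty := by
    rw [← card_pos, ((sys G t).mem_k4.mp hT₀).1]; norm_num
  set B := region G t ψ₀ T₀ with hB
  let a : V → ℕ := fun x => ((AA G t B ψ₀ x).erase v₀).card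
  have hloc : ∀ v ∈ B, 12 * t ≤ 3 * Δ ^ 2 + 6 * Δ + ∑ x ∈ G.neighborFinset v, a x + 3 * a v := by
    intro v hv
    obtain ⟨-, ψ, T, h, hvT⟩ := mem_filter.mp hv
    have h1 := local_count G hG hΔ ht hmin hT₀ h hvT
    have h2 : ∀ x, ((AA G t B ψ x).erase v).card = a x :=
      fun x => reach_card G hG hΔ ht hmin hT₀ hv₀ h x v hvT
    rw [← hB] at h1
    rw [h2 v, Finset.sum_congr rfl (fun x _ => h2 x)] at h1
    exact h1
  have hv₀B : v₀ ∈ B := subset_region G Reach.base hv₀
  have hsuma : ∑ x, a x + 1 ≤ B.card := by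
    have h1 : ∑ x, a x = (univ.biUnion (fun x => (AA G t B ψ₀ x).erase v₀)).card := by
      rw [card_biUnion]
      intro x _ y _ hxy
      rw [Function.onFun, Finset.disjoint_left]
      intro u hu hu'
      exact hxy (CompAt.unique hG ((mem_AA G).mp (mem_of_mem_erase hu))
        ((mem_AA G).mp (mem_of_mem_erase hu')))
    have h2 : (univ.biUnion (fun x => (AA G t B ψ₀ x).erase v₀)) ⊆ B.erase v₀ := by
      intro u hu
      obtain ⟨x, -, hu⟩ := mem_biUnion.mp hu
      refine mem_erase.mpr ⟨ne_of_mem_erase hu, ?_⟩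
      obtain ⟨S, h1, h2, -⟩ := (mem_AA G).mp (mem_of_mem_erase hu)
      exact h2 h1
    have h3 := card_le_card h2
    rw [← h1, card_erase_of_mem hv₀B] at h3
    have h4 : 0 < B.card := card_pos.mpr ⟨v₀, hv₀B⟩
    omega
  have h1 : ∑ v ∈ B, 12 * t ≤ ∑ v ∈ B, (3 * Δ ^ 2 + 6 * Δ + ∑ x ∈ G.neighborFinset v, a x
      + 3 * a v) := Finset.sum_le_sum hloc
  rw [Finset.sum_add_distrib, Finset.sum_add_distrib, Finset.sum_const, Finset.sum_const,
    smul_eq_mul, smul_eq_mul, ← Finset.mul_sum] at h1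
  have h2 : ∑ v ∈ B, ∑ x ∈ G.neighborFinset v, a x ≤ Δ * ∑ x, a x := by
    calc ∑ v ∈ B, ∑ x ∈ G.neighborFinset v, a x
        ≤ ∑ v, ∑ x ∈ G.neighborFinset v, a x :=
          Finset.sum_le_sum_of_subset (Finset.subset_univ _)
      _ = ∑ v, ∑ x, (if G.Adj v x then a x else 0) := by
          apply Finset.sum_congr rfl
          intro v _
          rw [← Finset.sum_filter]
          apply Finset.sum_congr _ (fun _ _ => rfl)
          ext x; simp
      _ = ∑ x, ∑ v, (if G.Adj v x then a x else 0) := Finset.sum_comm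
      _ = ∑ x, G.degree x * a x := by
          apply Finset.sum_congr rfl
          intro x _
          rw [← Finset.sum_filter, Finset.sum_const, smul_eq_mul,
            ← G.card_neighborFinset_eq_degree]
          congr 2
          ext v; simp [G.adj_comm]
      _ ≤ ∑ x, Δ * a x := Finset.sum_le_sum (fun x _ => Nat.mul_le_mul_right _ (hΔ x))
      _ = Δ * ∑ x, a x := by rw [Finset.mul_sum]
  have h3 : ∑ v ∈ B, a v ≤ ∑ x, a x := Finset.sum_le_sum_of_subset (Finset.subset_univ _)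
  have hB0 : 0 < B.card := card_pos.mpr ⟨v₀, hv₀B⟩
  have h4 : Δ * ∑ x, a x + Δ ≤ Δ * B.card := by
    calc Δ * ∑ x, a x + Δ = Δ * (∑ x, a x + 1) := by ring
      _ ≤ Δ * B.card := Nat.mul_le_mul_left _ hsuma
  have h5 : B.card * (3 * Δ ^ 2 + 7 * Δ + 3) ≤ B.card * (12 * t) := Nat.mul_le_mul_left _ ht
  have h6 : B.card * (3 * Δ ^ 2 + 7 * Δ + 3)
      = B.card * (3 * Δ ^ 2 + 6 * Δ) + Δ * B.card + 3 * B.card := by ring
  omega

end

/-- **Main theorem.** -/
theorem labelling (G : SimpleGraph V) [DecidableRel G.Adj] {Δ t : ℕ} (hG : NoShort G)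
    (hΔ : ∀ v, G.degree v ≤ Δ) (ht : 3 * Δ ^ 2 + 7 * Δ + 3 ≤ 12 * t) :
    ∃ f : V → ℕ, (∀ v, f v ≤ 3 * t + 1) ∧
      (∀ u v, G.Adj u v → 2 ≤ ((f u : ℤ) - (f v : ℤ)).natAbs) ∧
      (∀ u v w, u ≠ v → G.Adj u w → G.Adj v w → f u ≠ f v) := by
  classical
  have htpos : 0 < t := by omega
  have : Nonempty (Fin t) := ⟨⟨0, htpos⟩⟩
  obtain ⟨ψ, hψ⟩ := (sys G t).exists_min
  have h3 := cost_le_three G hΔ ht ψ hψ.1
  obtain ⟨c, hc⟩ := brooks_three ((sys G t).H ψ) (by
    intro v
    rw [← SimpleGraph.card_neighborFinset_eq_degree]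
    apply deg_le G ψ h3 v
    intro w hw
    simpa using hw) (by
    intro T hT4 hT
    exact no_k4 G hG hΔ ht hψ T ((sys G t).mem_k4.mpr ⟨hT4, hT⟩))
  refine ⟨fun v => (t + 1) * (c v).val + (ψ v).val, ?_, ?_, ?_⟩
  · intro v
    have h1 : (c v).val ≤ 2 := by have := (c v).isLt; omega
    have h2 := (ψ v).isLt
    have h4 : (t + 1) * (c v).val ≤ (t + 1) * 2 := Nat.mul_le_mul_left _ h1
    show (t + 1) * (c v).val + (ψ v).val ≤ 3 * t + 1
    omega
  · intro u v huv
    have hu := (ψ u).isLt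
    have hv := (ψ v).isLt
    have hcu := (c u).isLt
    have hcv := (c v).isLt
    by_cases hcc : c u = c v
    · have hn : ¬ ((sys G t).H ψ).Adj u v := fun h => hc u v h hcc
      have h1 : ψ u ≠ ψ v := fun h => hn ⟨huv.ne, Or.inl ⟨h, Or.inl huv⟩⟩
      have h2 : ¬ ((ψ u).val + 1 = (ψ v).val ∨ (ψ v).val + 1 = (ψ u).val) :=
        fun h => hn ⟨huv.ne, Or.inr ⟨h, huv⟩⟩
      have h1' : (ψ u).val ≠ (ψ v).val := fun h => h1 (Fin.ext h)
      show 2 ≤ ((((t + 1) * (c u).val + (ψ u).val : ℕ) : ℤ)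
        - (((t + 1) * (c v).val + (ψ v).val : ℕ) : ℤ)).natAbs
      rw [hcc]
      push_cast
      omega
    · have h4 : (c u).val ≠ (c v).val := fun h => hcc (Fin.ext h)
      have h5 : ((c u).val = 0 ∨ (c u).val = 1 ∨ (c u).val = 2) := by omega
      have h6 : ((c v).val = 0 ∨ (c v).val = 1 ∨ (c v).val = 2) := by omega
      show 2 ≤ ((((t + 1) * (c u).val + (ψ u).val : ℕ) : ℤ)
        - (((t + 1) * (c v).val + (ψ v).val : ℕ) : ℤ)).natAbs
      rcases h5 with h5 | h5 | h5 <;> rcases h6 with h6 | h6 | h6 <;> rw [h5, h6] at h4 ⊢ <;>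
        push_cast <;> omega
  · intro u v w huv huw hvw hf
    have hu := (ψ u).isLt
    have hv := (ψ v).isLt
    have hcu := (c u).isLt
    have hcv := (c v).isLt
    have hf' : (t + 1) * (c u).val + (ψ u).val = (t + 1) * (c v).val + (ψ v).val := hf
    have h5 : ((c u).val = 0 ∨ (c u).val = 1 ∨ (c u).val = 2) := by omega
    have h6 : ((c v).val = 0 ∨ (c v).val = 1 ∨ (c v).val = 2) := by omega
    have h7 : (c u).val = (c v).val ∧ (ψ u).val = (ψ v).val := by
      rcases h5 with h5 | h5 | h5 <;> rcases h6 with h6 | h6 | h6 <;> rw [h5, h6] at hf' ⊢ <;>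
        omega
    exact hc u v ⟨huv, Or.inl ⟨Fin.ext h7.2, Or.inr ⟨w, huw, hvw.symm⟩⟩⟩ (Fin.ext h7.1)

end GY7
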